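import Pool.Agent.TH506.AFF.Mul

/-!
Bose's affine difference sets for primes.
-/

set_option autoImplicit false

namespace Pool.Agent.TH506.AFF

open Finset

section

variable (p : ℕ) [Fact p.Prime]

/-- the field with `p ^ 2` elements -/
abbrev KK := GaloisField p 2

lemma finrank_KK : Module.finrank (ZMod p) (KK p) = 2 := GaloisField.finrank p (by norm_num)

noncomputable instance : Fintype (KK p) := Fintype.ofFinite _

noncomputable instance : Fintype (Additive (KK p)ˣ) :=
  haveI : Finite (Additive (KK p)ˣ) := inferInstanceAs (Finite (KK p)ˣ)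
  Fintype.ofFinite _

lemma core (g : (KK p)) (hg : ∀ c : ZMod p, algebraMap (ZMod p) (KK p) c ≠ g) (a b : ZMod p) :
    ∃! y : (KK p), Algebra.trace (ZMod p) (KK p) y = a ∧ Algebra.trace (ZMod p) (KK p) (g * y) = b := by
  have hfr2 : Module.finrank (ZMod p) (ZMod p × ZMod p) = 2 := by
    rw [Module.finrank_prod, Module.finrank_self]
  -- `1, g` span
  let Ψ : (ZMod p × ZMod p) →ₗ[ZMod p] (KK p) :=
    (Algebra.linearMap (ZMod p) (KK p)).coprod ((LinearMap.mulLeft (ZMod p) g).comp (Algebra.linearMap (ZMod p) (KK p)))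
  have hΨ : ∀ q, Ψ q = algebraMap (ZMod p) (KK p) q.1 + g * algebraMap (ZMod p) (KK p) q.2 := fun q => rfl
  have hΨinj : Function.Injective Ψ := by
    rw [← LinearMap.ker_eq_bot, LinearMap.ker_eq_bot']
    intro q hq
    rw [hΨ] at hq
    by_cases h2 : q.2 = 0
    · rw [h2, map_zero, mul_zero, add_zero] at hq
      have h1 : q.1 = 0 := (map_eq_zero _).1 hq
      exact Prod.ext h1 h2
    · exfalso
      have h3 : algebraMap (ZMod p) (KK p) q.2 ≠ 0 := (map_ne_zero _).2 h2
      apply hg (-q.1 / q.2)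
      rw [map_div₀, map_neg, div_eq_iff h3]
      linear_combination (-1 : (KK p)) * hq
  have hΨsurj : Function.Surjective Ψ :=
    (LinearMap.injective_iff_surjective_of_finrank_eq_finrank (by rw [hfr2, finrank_KK p])).1 hΨinj
  let Φ : (KK p) →ₗ[ZMod p] (ZMod p × ZMod p) :=
    (Algebra.trace (ZMod p) (KK p)).prod ((Algebra.trace (ZMod p) (KK p)).comp (LinearMap.mulLeft (ZMod p) g))
  have hΦ : ∀ y, Φ y = (Algebra.trace (ZMod p) (KK p) y, Algebra.trace (ZMod p) (KK p) (g * y)) := fun y => rfl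
  have hΦinj : Function.Injective Φ := by
    rw [← LinearMap.ker_eq_bot, LinearMap.ker_eq_bot']
    intro y hy
    rw [hΦ] at hy
    have h1 : Algebra.trace (ZMod p) (KK p) y = 0 := congrArg Prod.fst hy
    have h2 : Algebra.trace (ZMod p) (KK p) (g * y) = 0 := congrArg Prod.snd hy
    by_contra hy0
    have h3 : ∀ z : (KK p), Algebra.trace (ZMod p) (KK p) (y * z) = 0 := by
      intro z
      obtain ⟨q, hq⟩ := hΨsurj z
      rw [← hq, hΨ, mul_add]
      have e1 : y * algebraMap (ZMod p) (KK p) q.1 = q.1 • y := by rw [Algebra.smul_def, mul_comm]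
      have e2 : y * (g * algebraMap (ZMod p) (KK p) q.2) = q.2 • (g * y) := by rw [Algebra.smul_def]; ring
      rw [e1, e2, map_add, map_smul, map_smul, h1, h2, smul_zero, smul_zero, add_zero]
    obtain ⟨x, hx⟩ := Algebra.trace_surjective (ZMod p) (KK p) 1
    have h4 := h3 (y⁻¹ * x)
    rw [← mul_assoc, mul_inv_cancel₀ hy0, one_mul, hx] at h4
    exact one_ne_zero h4
  have hΦsurj : Function.Surjective Φ :=
    (LinearMap.injective_iff_surjective_of_finrank_eq_finrank (by rw [hfr2, finrank_KK p])).1 hΦinj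
  obtain ⟨y, hy⟩ := hΦsurj (a, b)
  refine ⟨y, ?_, ?_⟩
  · rw [hΦ] at hy
    exact ⟨congrArg Prod.fst hy, congrArg Prod.snd hy⟩
  · intro y' hy'
    apply hΦinj
    rw [hy, hΦ, hy'.1, hy'.2]

open Classical in
/-- elements of trace `1` -/
noncomputable def DB : Finset (Additive (KK p)ˣ) :=
  (univ : Finset (Additive (KK p)ˣ)).filter (fun x => Algebra.trace (ZMod p) (KK p) ((Additive.toMul x : (KK p)ˣ) : (KK p)) = 1)

lemma mem_DB (x : Additive (KK p)ˣ) : x ∈ DB p ↔ Algebra.trace (ZMod p) (KK p) ((Additive.toMul x : (KK p)ˣ) : (KK p)) = 1 := by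
  unfold DB
  rw [mem_filter]
  exact ⟨fun h => h.2, fun h => ⟨mem_univ _, h⟩⟩

/-- the subgroup of the prime field -/
noncomputable def NB : AddSubgroup (Additive (KK p)ˣ) :=
  Subgroup.toAddSubgroup (Units.map (algebraMap (ZMod p) (KK p) : ZMod p →* (KK p))).range

lemma mem_NB (x : Additive (KK p)ˣ) : x ∈ NB p ↔ ∃ c : ZMod p, algebraMap (ZMod p) (KK p) c = ((Additive.toMul x : (KK p)ˣ) : (KK p)) := by
  constructor
  · rintro ⟨c, hc⟩
    refine ⟨c, ?_⟩
    have := congrArg Units.val hc
    exact this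
  · rintro ⟨c, hc⟩
    have hc0 : c ≠ 0 := by
      rintro rfl
      rw [map_zero] at hc
      exact (Additive.toMul x).ne_zero hc.symm
    refine ⟨Units.mk0 c hc0, ?_⟩
    apply Units.ext
    exact hc

lemma card_NB : Nat.card (NB p) = p - 1 := by
  have hinj : Function.Injective (Units.map (algebraMap (ZMod p) (KK p) : ZMod p →* (KK p))) := by
    intro a b hab
    apply Units.ext
    exact (algebraMap (ZMod p) (KK p)).injective (congrArg Units.val hab)
  have h1 : Nat.card (NB p) = Nat.card ((Units.map (algebraMap (ZMod p) (KK p) : ZMod p →* (KK p))).range) := rfl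
  rw [h1, ← Nat.card_congr (MonoidHom.ofInjective hinj).toEquiv, Nat.card_eq_fintype_card, ZMod.card_units]

lemma card_GB : Nat.card (Additive (KK p)ˣ) = p ^ 2 - 1 := by
  have h1 : Nat.card (Additive (KK p)ˣ) = Nat.card (KK p)ˣ := Nat.card_congr Additive.toMul
  rw [h1, Nat.card_units, GaloisField.card p 2 (by norm_num)]

lemma exists_not_base : ∃ g : (KK p), ∀ c : ZMod p, algebraMap (ZMod p) (KK p) c ≠ g := by
  by_contra hcon
  push Not at hcon
  have h1 : Function.Surjective (algebraMap (ZMod p) (KK p)) := hcon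
  have h2 := Nat.card_le_card_of_surjective _ h1
  rw [GaloisField.card p 2 (by norm_num), Nat.card_zmod] at h2
  have h3 := (Fact.out : p.Prime).two_le
  nlinarith

lemma card_DB : #(DB p) = p := by
  classical
  obtain ⟨g, hg⟩ := exists_not_base p
  have hcore := core p g hg 1
  choose φ hφ1 hφ2 using hcore
  have h1 : #(univ : Finset (ZMod p)) = #(DB p) := by
    have hne : ∀ b, φ b ≠ 0 := by
      intro b h0
      have := (hφ1 b).1
      rw [h0, map_zero] at this
      exact zero_ne_one this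
    apply Finset.card_bij (fun b _ => Additive.ofMul (Units.mk0 (φ b) (hne b)))
    · intro b _
      rw [mem_DB]
      exact (hφ1 b).1
    · intro b _ b' _ h
      have h2 : φ b = φ b' := congrArg (fun x : Additive (KK p)ˣ => ((Additive.toMul x : (KK p)ˣ) : (KK p))) h
      rw [← (hφ1 b).2, ← (hφ1 b').2, h2]
    · intro x hx
      rw [mem_DB] at hx
      refine ⟨Algebra.trace (ZMod p) (KK p) (g * ((Additive.toMul x : (KK p)ˣ) : (KK p))), mem_univ _, ?_⟩
      have h2 := hφ2 _ _ ⟨hx, rfl⟩
      apply Additive.toMul.injective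
      apply Units.ext
      exact h2.symm
  rw [← h1, card_univ, ZMod.card]

open Classical in
lemma rep_DB (g : Additive (KK p)ˣ) (hg : g ∉ NB p) :
    ((DB p ×ˢ DB p).filter (fun q => q.1 - q.2 = g)).card = 1 := by
  have hg' : ∀ c : ZMod p, algebraMap (ZMod p) (KK p) c ≠ ((Additive.toMul g : (KK p)ˣ) : (KK p)) := by
    intro c hc
    exact hg ((mem_NB p g).2 ⟨c, hc⟩)
  obtain ⟨y, ⟨hy1, hy2⟩, hy3⟩ := core p _ hg' 1 1
  have hy0 : y ≠ 0 := by
    intro h0
    rw [h0, map_zero] at hy1
    exact zero_ne_one hy1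
  set y' : Additive (KK p)ˣ := Additive.ofMul (Units.mk0 y hy0) with hy'
  rw [card_eq_one]
  refine ⟨(g + y', y'), ?_⟩
  ext ⟨a, b⟩
  rw [mem_filter, mem_product, mem_singleton, mem_DB, mem_DB]
  constructor
  · rintro ⟨⟨h1, h2⟩, h3⟩
    simp only at h1 h2 h3
    have ha : a = g + b := by rw [← h3]; abel
    have h4 : ((Additive.toMul b : (KK p)ˣ) : (KK p)) = y := by
      apply hy3
      refine ⟨h2, ?_⟩
      rw [ha] at h1
      exact h1
    have hb : b = y' := by
      apply Additive.toMul.injective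
      apply Units.ext
      exact h4
    rw [ha, hb]
  · intro h
    rw [Prod.mk.injEq] at h
    obtain ⟨rfl, rfl⟩ := h
    refine ⟨⟨hy2, hy1⟩, ?_⟩
    simp

open Classical in
lemma norep_DB (g : Additive (KK p)ˣ) (hg : g ∈ NB p) (hg0 : g ≠ 0) :
    ((DB p ×ˢ DB p).filter (fun q => q.1 - q.2 = g)).card = 0 := by
  obtain ⟨c, hc⟩ := (mem_NB p g).1 hg
  rw [card_eq_zero, Finset.filter_eq_empty_iff]
  rintro ⟨a, b⟩ hab h
  rw [mem_product, mem_DB, mem_DB] at hab
  simp only at hab h
  have ha : a = g + b := by rw [← h]; abel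
  have h1 := hab.1
  have h2 : ((Additive.toMul (g + b) : (KK p)ˣ) : (KK p)) = c • ((Additive.toMul b : (KK p)ˣ) : (KK p)) := by
    rw [Algebra.smul_def, hc]; rfl
  rw [ha, h2, map_smul, hab.2, smul_eq_mul, mul_one] at h1
  apply hg0
  apply Additive.toMul.injective
  apply Units.ext
  rw [← hc, h1, map_one]
  rfl

end

end Pool.Agent.TH506.AFF
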