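import Pool.Agent.TH506.AFF.Sv
import Pool.Agent.TH506.APD.Fin2

/-!
Orders of abelian affine difference sets that are not prime: `o(X / log X)`.
-/

set_option autoImplicit false

namespace Pool.Agent.TH506.AFF

open Finset Filter Topology Pool.Agent.TH506.APD

/-- orders that are not prime -/
def BadA (n : ℕ) : Prop := IsAO n ∧ ¬ n.Prime

open Classical in
theorem combined : ∃ (C : ℝ) (Y0 : ℕ), 1 ≤ C ∧ ∀ X Y w w0 L J1 : ℕ, Y0 ≤ Y → 2 ≤ Y → 0 < w → 2 ≤ w ^ 2 →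
    0 < w0 → w0 ≤ Y → Y < 2 ^ L → 1 ≤ L → Y ^ 20 ≤ X → X ≤ 2 * Y ^ 20 → Y * w ^ 2 ≤ X →
    1 ≤ J1 → w ^ 2 < 2 ^ 2 ^ J1 →
    (#((Icc 2 X).filter BadA) : ℝ) ≤
      8 * X / ((w ^ 2 : ℕ) : ℝ) +
      2 * X * (Y : ℝ) ^ (-(1 / 64) : ℝ) *
        Real.exp (3 * ((w ^ 2 : ℕ) : ℝ) ^ (1 / 32 : ℝ) * (1 + Real.log ((w ^ 2 : ℕ) : ℝ))) +
      w0 * (2 * X * (1 + Real.log X) * ((11 * L + (1 + Real.log X)) / w) + 2 * (Y : ℝ) ^ 3) +
      (2 * X * (1 + Real.log X) ^ 2 * ((11 * L + (1 + Real.log X)) / w) + 2 * (2 * (Y : ℝ) ^ 10) * (Y : ℝ) ^ 3) +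
      (2 * X * (1 + Real.log X) / w0 + 2 * (2 * (Y : ℝ) ^ 10) * Y) +
      (C * X * (2 ^ J1) ^ 2 / Real.log Y ^ 2 + Y) := by
  obtain ⟨C1, Y1, hC1, hrough⟩ := rough_pm
  refine ⟨1 + C1, Y1, by linarith, ?_⟩
  intro X Y w w0 L J1 hY0 hY2 hw hw2 hw0 hw0Y hL hL1 hX1 hX2 hYw hJ1 hwJ
  have hY0' : 0 < Y := by omega
  have hX0 : 1 ≤ X := le_trans (Nat.one_le_pow _ _ hY0') hX1
  have hYX : Y ≤ X := le_trans (Nat.le_self_pow (by norm_num) Y) hX1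
  have hXr : (1 : ℝ) ≤ X := by exact_mod_cast hX0
  have hlogY : 0 < Real.log Y := Real.log_pos (by exact_mod_cast hY2)
  obtain ⟨H, hH⟩ : ∃ H : ℝ, H = 1 + Real.log (X : ℝ) := ⟨_, rfl⟩
  rw [← hH]
  have hHs : ∑ k ∈ Icc 1 X, (1 : ℝ) / k ≤ H := by
    have h := harmonic_le_one_add_log X
    rw [harmonic_eq_sum_Icc] at h
    push_cast at h
    rw [hH]
    simpa [one_div] using h
  have hPV : 2 * Y ^ 10 ≤ X := by
    calc 2 * Y ^ 10 ≤ Y * Y ^ 10 := Nat.mul_le_mul_right _ hY2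
      _ = Y ^ 11 := by ring
      _ ≤ Y ^ 20 := Nat.pow_le_pow_right hY0' (by norm_num)
      _ ≤ X := hX1
  have hL' : 2 * Y ^ 10 < 2 ^ (11 * L) := by
    calc 2 * Y ^ 10 < 2 * (2 ^ L) ^ 10 := by
          have := Nat.pow_lt_pow_left hL (by norm_num : 10 ≠ 0)
          omega
      _ = 2 ^ (10 * L + 1) := by rw [← pow_mul, pow_succ]; ring
      _ ≤ 2 ^ (11 * L) := Nat.pow_le_pow_right (by norm_num) (by omega)
  have hL'' : w0 < 2 ^ (11 * L) := by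
    calc w0 ≤ Y := hw0Y
      _ < 2 ^ L := hL
      _ ≤ 2 ^ (11 * L) := Nat.pow_le_pow_right (by norm_num) (by omega)
  set N : Finset ℕ := (Icc 2 X).filter BadA with hN
  have hNm : ∀ n ∈ N, 2 ≤ n ∧ n ≤ X ∧ BadA n := by
    intro n hn
    rw [hN, mem_filter, mem_Icc] at hn
    exact ⟨hn.1.1, hn.1.2, hn.2⟩
  set N0 := N.filter (fun n => E2 (w ^ 2) n) with hN0
  set N1 := N.filter (fun n => ∃ s : ℕ, s ∣ n + 1 ∧ Y < s ∧ ∀ q : ℕ, q.Prime → q ∣ s → q ≤ w ^ 2) with hN1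
  set N2 := N.filter (fun n => QA Y w w0 n) with hN2
  set N3 := N.filter (fun n => QB Y w (2 * Y ^ 10) n) with hN3
  set N4 := N.filter (fun n => QC Y w0 (2 * Y ^ 10) n) with hN4
  set N5 := N.filter (fun n => QS Y (w ^ 2) n) with hN5
  have hcov : N ⊆ N0 ∪ (N1 ∪ (N2 ∪ (N3 ∪ (N4 ∪ N5)))) := by
    intro n hn
    obtain ⟨h2, hnX, h1, h3⟩ := hNm n hn
    have h := cover (w0 := w0) hw2 h2 h1 (hnX.trans hX2) h3
    simp only [mem_union, hN0, hN1, hN2, hN3, hN4, hN5, mem_filter, hn, true_and]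
    exact h
  have hcard : #N ≤ #N0 + #N1 + #N2 + #N3 + #N4 + #N5 := by
    have h0 := (card_le_card hcov).trans (card_union_le _ _)
    have h1 := card_union_le N1 (N2 ∪ (N3 ∪ (N4 ∪ N5)))
    have h2 := card_union_le N2 (N3 ∪ (N4 ∪ N5))
    have h3 := card_union_le N3 (N4 ∪ N5)
    have h4 := card_union_le N4 N5
    omega
  have hcardr : (#N : ℝ) ≤ #N0 + #N1 + #N2 + #N3 + #N4 + #N5 := by exact_mod_cast hcard
  have b0 : (#N0 : ℝ) ≤ 8 * X / ((w ^ 2 : ℕ) : ℝ) :=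
    E2_count hw2 N0 (fun n hn => by
      rw [hN0, mem_filter] at hn
      exact ⟨(hNm n hn.1).2.1, hn.2⟩)
  have b1 : (#N1 : ℝ) ≤ 2 * X * (Y : ℝ) ^ (-(1 / 64) : ℝ) *
        Real.exp (3 * ((w ^ 2 : ℕ) : ℝ) ^ (1 / 32 : ℝ) * (1 + Real.log ((w ^ 2 : ℕ) : ℝ))) :=
    smooth_count hY0' (by omega) hYw N1 (fun n hn => by
      rw [hN1, mem_filter] at hn
      exact ⟨(hNm n hn.1).2.1, hn.2⟩)
  have b2 := QA_count (X := X) (V := X) (L := 11 * L) hw hL'' hYX hHs N2 (fun n hn => by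
      rw [hN2, mem_filter] at hn
      have := hNm n hn.1
      exact ⟨by omega, this.2.1, hn.2⟩)
  have b3 := QB_count (X := X) (V := X) (L := 11 * L) hw hL' hYX hPV hHs N3 (fun n hn => by
      rw [hN3, mem_filter] at hn
      have := hNm n hn.1
      exact ⟨by omega, this.2.1, hn.2⟩)
  have b4 := QC_count (X := X) (V := X) hw0 hYX hHs N4 (fun n hn => by
      rw [hN4, mem_filter] at hn
      have := hNm n hn.1
      exact ⟨by omega, this.2.1, hn.2⟩)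
  push_cast at b2 b3 b4
  have b5 : (#N5 : ℝ) ≤ (1 + C1) * X * (2 ^ J1) ^ 2 / Real.log Y ^ 2 + Y := by
    have h1 := hrough X Y (w ^ 2) J1 hY0 hX0 hJ1 hwJ N5 (fun n hn => by
      rw [hN5, mem_filter] at hn
      have := hNm n hn.1
      exact ⟨by omega, this.2.1, hn.2⟩)
    refine h1.trans ?_
    gcongr
    linarith
  linarith

lemma level_cond3 {L : ℕ} (hL : 1 ≤ L) : ∃ J1 : ℕ, 1 ≤ J1 ∧ (L ^ 8) ^ 2 < 2 ^ 2 ^ J1 ∧
    2 ^ J1 ≤ 32 * (Nat.log 2 L + 1) := by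
  obtain ⟨m, hm⟩ : ∃ m : ℕ, m = Nat.log 2 L := ⟨_, rfl⟩
  rw [← hm]
  have h2 : L < 2 ^ (m + 1) := by rw [hm]; exact Nat.lt_pow_succ_log_self (by norm_num) L
  obtain ⟨a, ha⟩ : ∃ a : ℕ, a = Nat.log 2 (16 * (m + 1)) := ⟨_, rfl⟩
  have h3 : 16 * (m + 1) < 2 ^ (a + 1) := by
    rw [ha]; exact Nat.lt_pow_succ_log_self (by norm_num) _
  have h4 : 2 ^ a ≤ 16 * (m + 1) := by
    rw [ha]; exact Nat.pow_log_le_self 2 (by omega)
  refine ⟨a + 1, by omega, ?_, ?_⟩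
  · calc (L ^ 8) ^ 2 = L ^ 16 := by rw [← pow_mul]
      _ < (2 ^ (m + 1)) ^ 16 := Nat.pow_lt_pow_left h2 (by norm_num)
      _ = 2 ^ (16 * (m + 1)) := by rw [← pow_mul, mul_comm]
      _ ≤ 2 ^ 2 ^ (a + 1) := Nat.pow_le_pow_right (by norm_num) h3.le
  · rw [pow_succ]; omega

set_option maxHeartbeats 4000000 in
/-- the real estimates -/
lemma est {C : ℝ} {X Y L B w w0 J1 : ℕ} (hC1 : 1 ≤ C) (h300 : 300 ≤ B) (hB2Y : B ^ 2 ≤ Y)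
    (hYX : Y ^ 20 ≤ X) (hX2 : X ≤ 2 * Y ^ 20) (hYL : Y < 2 ^ L) (hYL' : 2 ^ (L - 1) ≤ Y) (hL1 : 1 ≤ L)
    (hL8 : (L : ℝ) ^ 8 ≤ B) (hw : w = L ^ 8) (hw0 : w0 = L ^ 4)
    (hexp : 2 * Real.log L + 3 * (L : ℝ) ^ (1 / 2 : ℝ) * (1 + 16 * Real.log L) ≤
      ((L : ℝ) - 1) * Real.log 2 / 64) :
    1 ≤ Real.log Y ∧ Real.log X ≤ 21 * Real.log Y ∧ (L : ℝ) ≤ 3 * Real.log Y ∧
      8 * X / ((w ^ 2 : ℕ) : ℝ) +
      2 * X * (Y : ℝ) ^ (-(1 / 64) : ℝ) *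
        Real.exp (3 * ((w ^ 2 : ℕ) : ℝ) ^ (1 / 32 : ℝ) * (1 + Real.log ((w ^ 2 : ℕ) : ℝ))) +
      w0 * (2 * X * (1 + Real.log X) * ((11 * L + (1 + Real.log X)) / w) + 2 * (Y : ℝ) ^ 3) +
      (2 * X * (1 + Real.log X) ^ 2 * ((11 * L + (1 + Real.log X)) / w) + 2 * (2 * (Y : ℝ) ^ 10) * (Y : ℝ) ^ 3) +
      (2 * X * (1 + Real.log X) / w0 + 2 * (2 * (Y : ℝ) ^ 10) * Y) +
      (C * X * (2 ^ J1) ^ 2 / Real.log Y ^ 2 + Y) ≤
    (C + 60000) * (X / Real.log Y ^ 2) * (2 ^ J1) ^ 2 := by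
  have hBr : (300 : ℝ) ≤ B := by exact_mod_cast h300
  have hB0' : (0 : ℝ) < B := by linarith
  have hB2Yr : (B : ℝ) ^ 2 ≤ Y := by exact_mod_cast hB2Y
  have hBYr : (B : ℝ) ≤ Y := by nlinarith
  have hYr : (300 : ℝ) ≤ Y := by linarith
  have hY0r : (0 : ℝ) < Y := by linarith
  have hLr : (1 : ℝ) ≤ L := by exact_mod_cast hL1
  set u := Real.log Y with hu
  have hu1 : 1 ≤ u := by
    rw [hu, Real.le_log_iff_exp_le hY0r]
    have := Real.exp_one_lt_d9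
    linarith
  have hl2 := Real.log_two_gt_d9
  have hl2' := Real.log_two_lt_d9
  have huL : u ≤ L := by
    have h1 : (Y : ℝ) ≤ 2 ^ L := by exact_mod_cast hYL.le
    have h2 := Real.log_le_log hY0r h1
    rw [Real.log_pow] at h2
    nlinarith
  have hLL : ((L : ℝ) - 1) * Real.log 2 ≤ u := by
    have h6 : (2 : ℝ) ^ (L - 1) ≤ Y := by exact_mod_cast hYL'
    have h7 := Real.log_le_log (by positivity) h6
    rw [Real.log_pow, ← hu, Nat.cast_sub hL1] at h7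
    exact_mod_cast h7
  have hLu : (L : ℝ) ≤ 3 * u := by nlinarith
  have hXr : (Y : ℝ) ^ 20 ≤ X := by exact_mod_cast hYX
  have hX2r : (X : ℝ) ≤ 2 * (Y : ℝ) ^ 20 := by exact_mod_cast hX2
  have hY1r : (1 : ℝ) ≤ Y := by linarith
  have hX0 : (0 : ℝ) < X := lt_of_lt_of_le (by positivity) hXr
  have hX1r : (1 : ℝ) ≤ X := le_trans (one_le_pow₀ hY1r) hXr
  have hu0 : 0 < u := by linarith
  have hL0 : (0 : ℝ) < L := by linarith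
  have hXu : 0 < (X : ℝ) / u ^ 2 := by positivity
  have hLpow : ∀ i : ℕ, i ≤ 8 → (L : ℝ) ^ i ≤ B := fun i hi =>
    (pow_le_pow_right₀ hLr hi).trans hL8
  have hupow : ∀ i : ℕ, i ≤ 8 → u ^ i ≤ B := fun i hi =>
    (pow_le_pow_left₀ hu0.le huL i).trans (hLpow i hi)
  have huY2 : u ^ 2 ≤ Y := (hupow 2 (by norm_num)).trans hBYr
  have hXY : (X : ℝ) / Y ≤ X / u ^ 2 := by gcongr
  have hpow19 : (Y : ℝ) ^ 19 ≤ X / Y := by
    rw [le_div_iff₀ hY0r]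
    calc (Y : ℝ) ^ 19 * (Y : ℝ) = (Y : ℝ) ^ 20 := by ring
      _ ≤ (X : ℝ) := hXr
  have hpowle : ∀ i : ℕ, i ≤ 19 → (Y : ℝ) ^ i ≤ X / u ^ 2 := fun i hi =>
    (pow_le_pow_right₀ hY1r hi).trans (hpow19.trans hXY)
  have hlogX : Real.log X ≤ 20 * u + 1 := by
    have h1 := Real.log_le_log hX0 hX2r
    rw [Real.log_mul (by norm_num) (by positivity), Real.log_pow, ← hu] at h1
    push_cast at h1
    linarith
  have hH : 1 + Real.log X ≤ 22 * u := by linarith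
  have hlogX0 : 0 ≤ Real.log X := Real.log_natCast_nonneg _
  have hH0 : 0 ≤ 1 + Real.log X := by linarith
  have hlogX21 : Real.log X ≤ 21 * u := by linarith
  clear_value u
  generalize 1 + Real.log (X : ℝ) = H at hH hH0 ⊢
  have hwr : ((w : ℕ) : ℝ) = (L : ℝ) ^ 8 := by rw [hw]; push_cast; ring
  have hw0r : ((w0 : ℕ) : ℝ) = (L : ℝ) ^ 4 := by rw [hw0]; push_cast; ring
  have hw2 : ((w ^ 2 : ℕ) : ℝ) = (L : ℝ) ^ 16 := by
    rw [Nat.cast_pow, hwr, ← pow_mul]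
  have t1 : 8 * (X : ℝ) / ((w ^ 2 : ℕ) : ℝ) ≤ 8 * (X / u ^ 2) := by
    rw [hw2]
    have h2 : u ^ 2 ≤ (L : ℝ) ^ 16 := by
      calc u ^ 2 ≤ (L : ℝ) ^ 2 := by gcongr
        _ ≤ (L : ℝ) ^ 16 := pow_le_pow_right₀ hLr (by norm_num)
    calc 8 * (X : ℝ) / (L : ℝ) ^ 16 ≤ 8 * X / u ^ 2 := by gcongr
      _ = _ := by ring
  have t2 : 2 * X * (Y : ℝ) ^ (-(1 / 64) : ℝ) *
        Real.exp (3 * ((w ^ 2 : ℕ) : ℝ) ^ (1 / 32 : ℝ) * (1 + Real.log ((w ^ 2 : ℕ) : ℝ))) ≤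
        2 * (X / u ^ 2) := by
    have h2 : ((L : ℝ) ^ 16) ^ (1 / 32 : ℝ) = (L : ℝ) ^ (1 / 2 : ℝ) := by
      rw [← Real.rpow_natCast, ← Real.rpow_mul hL0.le]; norm_num
    rw [hw2, h2, Real.log_pow]
    push_cast
    have h5 : (Y : ℝ) ^ (-(1 / 64) : ℝ) = Real.exp (-(u / 64)) := by
      rw [Real.rpow_def_of_pos hY0r, ← hu]; congr 1; ring
    rw [h5, mul_assoc, ← Real.exp_add]
    have h6 : Real.exp (-(u / 64) + 3 * (L : ℝ) ^ (1 / 2 : ℝ) * (1 + 16 * Real.log L)) ≤ 1 / u ^ 2 := by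
      calc _ ≤ Real.exp (-(Real.log L + Real.log L)) := by
            apply Real.exp_le_exp.2
            linarith
        _ = 1 / (L : ℝ) ^ 2 := by
            rw [Real.exp_neg, Real.exp_add, Real.exp_log hL0, one_div, pow_two]
        _ ≤ 1 / u ^ 2 := by gcongr
    calc 2 * X * Real.exp (-(u / 64) + 3 * (L : ℝ) ^ (1 / 2 : ℝ) * (1 + 16 * Real.log L))
        ≤ 2 * X * (1 / u ^ 2) := by gcongr
      _ = _ := by ring
  have hLH : 11 * (L : ℝ) + H ≤ 55 * u := by linarith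
  have hLH0 : 0 ≤ 11 * (L : ℝ) + H := by positivity
  have t3 : (w0 : ℝ) * (2 * X * H * ((11 * L + H) / w) + 2 * (Y : ℝ) ^ 3) ≤ 2422 * (X / u ^ 2) := by
    rw [hw0r, hwr]
    have h1 : 2 * (X : ℝ) * H * ((11 * L + H) / (L : ℝ) ^ 8) ≤ 2 * X * (22 * u) * ((55 * u) / (L : ℝ) ^ 8) := by
      gcongr
    have h2 : (L : ℝ) ^ 4 * (2 * X * (22 * u) * ((55 * u) / (L : ℝ) ^ 8)) = 2420 * X * (u ^ 2 / (L : ℝ) ^ 4) := by
      field_simp; ring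
    have h3 : u ^ 2 / (L : ℝ) ^ 4 ≤ 1 / u ^ 2 := by
      rw [div_le_div_iff₀ (by positivity) (by positivity)]
      calc u ^ 2 * u ^ 2 ≤ (L : ℝ) ^ 2 * (L : ℝ) ^ 2 := by gcongr
        _ = 1 * (L : ℝ) ^ 4 := by ring
    have h4 : (L : ℝ) ^ 4 * (2 * (Y : ℝ) ^ 3) ≤ 2 * (X / u ^ 2) := by
      calc (L : ℝ) ^ 4 * (2 * (Y : ℝ) ^ 3) ≤ Y * (2 * (Y : ℝ) ^ 3) := by
            gcongr
            exact (hLpow 4 (by norm_num)).trans hBYr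
        _ = 2 * (Y : ℝ) ^ 4 := by ring
        _ ≤ _ := by gcongr; exact hpowle 4 (by norm_num)
    calc (L : ℝ) ^ 4 * (2 * X * H * ((11 * L + H) / (L : ℝ) ^ 8) + 2 * (Y : ℝ) ^ 3)
        = (L : ℝ) ^ 4 * (2 * X * H * ((11 * L + H) / (L : ℝ) ^ 8)) + (L : ℝ) ^ 4 * (2 * (Y : ℝ) ^ 3) := by ring
      _ ≤ (L : ℝ) ^ 4 * (2 * X * (22 * u) * ((55 * u) / (L : ℝ) ^ 8)) + 2 * (X / u ^ 2) := by gcongr
      _ = 2420 * X * (u ^ 2 / (L : ℝ) ^ 4) + 2 * (X / u ^ 2) := by rw [h2]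
      _ ≤ 2420 * X * (1 / u ^ 2) + 2 * (X / u ^ 2) := by gcongr
      _ = _ := by ring
  have t4 : 2 * X * H ^ 2 * ((11 * L + H) / w) + 2 * (2 * (Y : ℝ) ^ 10) * (Y : ℝ) ^ 3 ≤ 53300 * (X / u ^ 2) := by
    rw [hwr]
    have h1 : 2 * (X : ℝ) * H ^ 2 * ((11 * L + H) / (L : ℝ) ^ 8) ≤ 2 * X * (22 * u) ^ 2 * ((55 * u) / u ^ 8) := by
      gcongr
    have h2 : 2 * (X : ℝ) * (22 * u) ^ 2 * ((55 * u) / u ^ 8) = 53240 * (X / u ^ 2) * (1 / u ^ 3) := by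
      field_simp; ring
    have h3 : 1 / u ^ 3 ≤ 1 := by
      rw [div_le_one (by positivity)]
      exact one_le_pow₀ hu1
    have h4 : 2 * (2 * (Y : ℝ) ^ 10) * (Y : ℝ) ^ 3 ≤ 4 * (X / u ^ 2) := by
      calc 2 * (2 * (Y : ℝ) ^ 10) * (Y : ℝ) ^ 3 = 4 * (Y : ℝ) ^ 13 := by ring
        _ ≤ _ := by gcongr; exact hpowle 13 (by norm_num)
    have h5 : 53240 * (X / u ^ 2) * (1 / u ^ 3) ≤ 53240 * (X / u ^ 2) * 1 := by gcongr
    linarith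
  have t5 : 2 * X * H / w0 + 2 * (2 * (Y : ℝ) ^ 10) * Y ≤ 48 * (X / u ^ 2) := by
    rw [hw0r]
    have h1 : 2 * (X : ℝ) * H / (L : ℝ) ^ 4 ≤ 2 * X * (22 * u) / u ^ 4 := by gcongr
    have h2 : 2 * (X : ℝ) * (22 * u) / u ^ 4 = 44 * (X / u ^ 2) * (1 / u) := by field_simp; ring
    have h3 : 1 / u ≤ 1 := by
      rw [div_le_one (by positivity)]; exact hu1
    have h4 : 2 * (2 * (Y : ℝ) ^ 10) * (Y : ℝ) ≤ 4 * (X / u ^ 2) := by
      calc 2 * (2 * (Y : ℝ) ^ 10) * (Y : ℝ) = 4 * (Y : ℝ) ^ 11 := by ring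
        _ ≤ _ := by gcongr; exact hpowle 11 (by norm_num)
    have h5 : 44 * (X / u ^ 2) * (1 / u) ≤ 44 * (X / u ^ 2) * 1 := by gcongr
    linarith
  have t6 : (Y : ℝ) ≤ X / u ^ 2 := by simpa using hpowle 1 (by norm_num)
  refine ⟨hu1, hlogX21, hLu, ?_⟩
  have hJ : (1 : ℝ) ≤ (2 ^ J1) ^ 2 := one_le_pow₀ (one_le_pow₀ (by norm_num))
  have e1 : C * X * (2 ^ J1) ^ 2 / u ^ 2 = (C * (X / u ^ 2)) * (2 ^ J1) ^ 2 := by ring
  rw [e1]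
  have e3 : 60000 * (X / u ^ 2) ≤ 60000 * (X / u ^ 2) * (2 ^ J1) ^ 2 :=
    le_mul_of_one_le_right (by positivity) hJ
  have e4 : (C + 60000) * (X / u ^ 2) * (2 ^ J1) ^ 2 = C * (X / u ^ 2) * (2 ^ J1) ^ 2 +
      60000 * (X / u ^ 2) * (2 ^ J1) ^ 2 := by ring
  rw [e4]
  linarith

set_option maxHeartbeats 4000000 in
open Classical in
theorem badA_rate : ∃ (C : ℝ) (X0 : ℕ), 0 < C ∧ ∀ X : ℕ, X0 ≤ X →
    (#((Icc 2 X).filter BadA) : ℝ) ≤ C * X * Real.log (Real.log X) ^ 2 / Real.log X ^ 2 := by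
  obtain ⟨C, Y0, hC1, hcomb⟩ := combined
  obtain ⟨x0, hx01, hexp⟩ := exp_cond2
  obtain ⟨B1, hB1⟩ := L_cond (1 / 2) (by norm_num)
  set K : ℝ := C + 60000 with hK
  obtain ⟨b3, hb3⟩ : ∃ b : ℕ, b = 2 ^ ⌈x0⌉₊ := ⟨_, rfl⟩
  obtain ⟨B0, h300, hY0B, hB1B, hx0B⟩ : ∃ B0 : ℕ, 300 ≤ B0 ∧ Y0 ≤ B0 ∧ B1 ≤ B0 ∧
      b3 ≤ B0 :=
    ⟨300 + Y0 + B1 + b3, by omega, by omega, by omega, by omega⟩
  rw [hb3] at hx0B
  obtain ⟨X0, hX0⟩ := choose_B B0 h300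
  obtain ⟨X1, hX1⟩ : ∃ X1 : ℕ, X1 = ⌈Real.exp (Real.exp 1)⌉₊ + ⌈Real.exp 3⌉₊ := ⟨_, rfl⟩
  refine ⟨K * 441 * (25 * 1024), X0 + X1 + 2, by rw [hK]; positivity, fun X hX => ?_⟩
  obtain ⟨B, hBB0, hYX, hX2⟩ := hX0 X (by omega)
  have hX2' : 2 ≤ X := by omega
  obtain ⟨Y, hY⟩ : ∃ Y : ℕ, Y = B ^ 10 := ⟨_, rfl⟩
  rw [← hY] at hYX hX2
  have hBY : B ≤ Y := by rw [hY]; exact Nat.le_self_pow (by norm_num) B
  have hB2Y : B ^ 2 ≤ Y := by rw [hY]; exact Nat.pow_le_pow_right (by omega) (by norm_num)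
  obtain ⟨L, hL⟩ : ∃ L : ℕ, L = Nat.log 2 Y + 1 := ⟨_, rfl⟩
  have hYL : Y < 2 ^ L := by rw [hL]; exact Nat.lt_pow_succ_log_self (by norm_num) Y
  have hYL' : 2 ^ (L - 1) ≤ Y := by
    rw [hL, Nat.add_sub_cancel]; exact Nat.pow_log_le_self 2 (by omega)
  have hL1 : 1 ≤ L := by omega
  have hL8 : (L : ℝ) ^ 8 ≤ 1 / 2 * B := by
    have := hB1 B (hB1B.trans hBB0)
    rw [← hY, ← hL] at this
    exact this
  have hLx0 : x0 ≤ L := by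
    have h1 : ⌈x0⌉₊ ≤ Nat.log 2 Y :=
      Nat.le_log_of_pow_le (by norm_num) (hx0B.trans (hBB0.trans hBY))
    calc x0 ≤ ⌈x0⌉₊ := Nat.le_ceil _
      _ ≤ L := by exact_mod_cast (by omega : ⌈x0⌉₊ ≤ L)
  obtain ⟨J1, hJ1, hJw, hJL⟩ := level_cond3 (L := L) hL1
  have hBr : (300 : ℝ) ≤ B := by exact_mod_cast h300.trans hBB0
  obtain ⟨w, hw⟩ : ∃ w : ℕ, w = L ^ 8 := ⟨_, rfl⟩
  obtain ⟨w0, hw0⟩ : ∃ w0 : ℕ, w0 = L ^ 4 := ⟨_, rfl⟩
  have hwB : w ≤ B := by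
    have : ((w : ℕ) : ℝ) ≤ B := by rw [hw]; push_cast; linarith
    exact_mod_cast this
  have hw1 : 1 ≤ w := by rw [hw]; exact Nat.one_le_pow _ _ hL1
  have hL2 : 2 ≤ L := by
    have h1 : 1 ≤ Nat.log 2 Y := Nat.le_log_of_pow_le (by norm_num) (by omega)
    omega
  have hw2 : 2 ≤ w ^ 2 := by
    rw [hw, ← pow_mul]
    exact hL2.trans (Nat.le_self_pow (by norm_num) L)
  have hw01 : 0 < w0 := by rw [hw0]; exact Nat.pow_pos (by omega)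
  have hw0Y : w0 ≤ Y := by
    have : w0 ≤ w := by rw [hw0, hw]; exact Nat.pow_le_pow_right (by omega) (by norm_num)
    omega
  have hYpos : 0 < Y := by omega
  have hwY : Y * w ^ 2 ≤ X := by
    calc Y * w ^ 2 ≤ Y * Y ^ 2 := Nat.mul_le_mul_left _ (Nat.pow_le_pow_left (by omega) 2)
      _ = Y ^ 3 := by ring
      _ ≤ Y ^ 20 := Nat.pow_le_pow_right hYpos (by norm_num)
      _ ≤ X := hYX
  have hmain := hcomb X Y w w0 L J1 (hY0B.trans (hBB0.trans hBY)) (by omega) (by omega) hw2 hw01 hw0Y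
    hYL hL1 hYX hX2 hwY hJ1 (by rw [hw]; exact hJw)
  obtain ⟨e1, e2, e3, e4⟩ := est (J1 := J1) hC1 (h300.trans hBB0) hB2Y hYX hX2 hYL
    hYL' hL1 (by linarith : (L : ℝ) ^ 8 ≤ B) hw hw0 (hexp L hLx0)
  have htot := hmain.trans e4
  have hXr : (2 : ℝ) ≤ X := by exact_mod_cast hX2'
  have hX0r : (0 : ℝ) < X := by linarith
  have hYXr : (Y : ℝ) ≤ X := by exact_mod_cast (Nat.le_self_pow (by norm_num) Y).trans hYX
  have huX : Real.log Y ≤ Real.log X := Real.log_le_log (by exact_mod_cast hYpos) hYXr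
  set u := Real.log Y with hu
  have hu0 : 0 < u := by linarith
  have hK0 : 0 < K := by rw [hK]; linarith
  have hLr0 : (0 : ℝ) < L := by exact_mod_cast (by omega : 0 < L)
  -- `t = log X`
  have hXe1 : Real.exp (Real.exp 1) ≤ X := by
    calc Real.exp (Real.exp 1) ≤ ⌈Real.exp (Real.exp 1)⌉₊ := Nat.le_ceil _
      _ ≤ X := by exact_mod_cast (by omega : ⌈Real.exp (Real.exp 1)⌉₊ ≤ X)
  have hXe3 : Real.exp 3 ≤ X := by
    calc Real.exp 3 ≤ ⌈Real.exp 3⌉₊ := Nat.le_ceil _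
      _ ≤ X := by exact_mod_cast (by omega : ⌈Real.exp 3⌉₊ ≤ X)
  have ht3 : 3 ≤ Real.log X := (Real.le_log_iff_exp_le hX0r).2 hXe3
  have hte : Real.exp 1 ≤ Real.log X := (Real.le_log_iff_exp_le hX0r).2 hXe1
  obtain ⟨t, ht⟩ : ∃ t : ℝ, t = Real.log X := ⟨_, rfl⟩
  rw [← ht] at ht3 hte e2 huX ⊢
  have ht0 : 0 < t := by linarith
  have hv1 : 1 ≤ Real.log t := (Real.le_log_iff_exp_le ht0).2 hte
  obtain ⟨v, hv⟩ : ∃ v : ℝ, v = Real.log t := ⟨_, rfl⟩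
  rw [← hv] at hv1 ⊢
  have hl2 := Real.log_two_gt_d9
  have hm : ((Nat.log 2 L : ℕ) : ℝ) ≤ 4 * v := by
    have h1 : 2 ^ Nat.log 2 L ≤ L := Nat.pow_log_le_self 2 (by omega)
    have h2 : (2 : ℝ) ^ Nat.log 2 L ≤ t ^ 2 := by
      calc (2 : ℝ) ^ Nat.log 2 L ≤ L := by exact_mod_cast h1
        _ ≤ 3 * u := e3
        _ ≤ t * t := by nlinarith
        _ = t ^ 2 := by ring
    have h3 := Real.log_le_log (by positivity) h2
    rw [Real.log_pow, Real.log_pow, ← hv] at h3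
    push_cast at h3
    have h5 : ((Nat.log 2 L : ℕ) : ℝ) * (1 / 2) ≤ (Nat.log 2 L : ℕ) * Real.log 2 :=
      mul_le_mul_of_nonneg_left (by linarith) (Nat.cast_nonneg _)
    linarith
  have hq : ((2 : ℝ) ^ J1) ^ 2 ≤ (25 * 1024) * v ^ 2 := by
    have h1 : ((2 : ℝ) ^ J1) ≤ 32 * ((Nat.log 2 L : ℕ) + 1) := by exact_mod_cast hJL
    have h2 : ((2 : ℝ) ^ J1) ≤ 160 * v := by linarith
    calc ((2 : ℝ) ^ J1) ^ 2 ≤ (160 * v) ^ 2 := by gcongr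
      _ = _ := by ring
  have hXu : (X : ℝ) / u ^ 2 ≤ 441 * (X / t ^ 2) := by
    have h1 : t ^ 2 ≤ 441 * u ^ 2 := by
      calc t ^ 2 ≤ (21 * u) ^ 2 := by gcongr
        _ = _ := by ring
    have h3 : 441 * ((X : ℝ) / t ^ 2) = (441 * X) / t ^ 2 := by ring
    rw [h3, div_le_div_iff₀ (by positivity) (by positivity)]
    calc (X : ℝ) * t ^ 2 ≤ X * (441 * u ^ 2) := by gcongr
      _ = _ := by ring
  calc (#((Icc 2 X).filter BadA) : ℝ) ≤ K * (X / u ^ 2) * (2 ^ J1) ^ 2 := htot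
    _ ≤ K * (441 * (X / t ^ 2)) * ((25 * 1024) * v ^ 2) := by gcongr
    _ = _ := by ring

open Classical in
theorem badA_small {η : ℝ} (hη : 0 < η) : ∃ X0 : ℕ, ∀ X : ℕ, X0 ≤ X →
    (#((Icc 2 X).filter BadA) : ℝ) * Real.log X ≤ η * X := by
  obtain ⟨C, X0, hC, h⟩ := badA_rate
  have h1 : (fun x : ℝ => Real.log x ^ 2) =o[atTop] (id : ℝ → ℝ) := Real.isLittleO_pow_log_id_atTop
  obtain ⟨a, ha⟩ := eventually_atTop.1 (h1.bound (show (0 : ℝ) < η / C by positivity))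
  have h2 := (Real.tendsto_log_atTop.comp (tendsto_natCast_atTop_atTop (R := ℝ))).eventually
    (eventually_ge_atTop (max a 1))
  obtain ⟨X1, hX1⟩ := eventually_atTop.1 h2
  refine ⟨X0 + X1, fun X hX => ?_⟩
  have h3 := h X (by omega)
  have h4 : max a 1 ≤ Real.log X := hX1 X (by omega)
  have h5 := ha (Real.log X) ((le_max_left _ _).trans h4)
  have h6 : 1 ≤ Real.log X := (le_max_right _ _).trans h4
  simp only [id] at h5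
  rw [Real.norm_of_nonneg (by positivity), Real.norm_of_nonneg (by linarith)] at h5
  have ht0 : 0 < Real.log X := by linarith
  calc (#((Icc 2 X).filter BadA) : ℝ) * Real.log X
      ≤ (C * X * Real.log (Real.log X) ^ 2 / Real.log X ^ 2) * Real.log X := by gcongr
    _ = C * X * Real.log (Real.log X) ^ 2 / Real.log X := by field_simp
    _ ≤ C * X * (η / C * Real.log X) / Real.log X := by gcongr
    _ = η * X := by field_simp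

end Pool.Agent.TH506.AFF
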