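import Pool.Agent.TH506.AFF.Fix
import Pool.Agent.TH506.APD.Smo
import Pool.Agent.TH506.APD.Ord3

/-!
Counting lemmas for the orders of affine difference sets.
-/

set_option autoImplicit false

namespace Pool.Agent.TH506.AFF

open Finset Pool.Agent.TH506.APD

/-- the exceptional orders are rare -/
lemma E2_count {X z : ℕ} (hz : 2 ≤ z) (A : Finset ℕ) (hA : ∀ n ∈ A, n ≤ X ∧ E2 z n) :
    (#A : ℝ) ≤ 8 * X / z := by
  classical
  have hsub : A ⊆ (Ioc (z - 1) X).biUnion (fun k => A.filter (fun n => k < n ∧ k + 1 ∣ n + 1 ∧ k - 1 ∣ n - 1)) := by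
    intro n hn
    obtain ⟨h1, k, h2, h3, h4, h5⟩ := hA n hn
    rw [mem_biUnion]
    exact ⟨k, mem_Ioc.2 ⟨by omega, by omega⟩, mem_filter.2 ⟨hn, h3, h4, h5⟩⟩
  have hone : ∀ k ∈ Ioc (z - 1) X, (#(A.filter (fun n => k < n ∧ k + 1 ∣ n + 1 ∧ k - 1 ∣ n - 1)) : ℝ) ≤
      4 * X * (1 / (k : ℝ) ^ 2) := by
    intro k hk
    rw [mem_Ioc] at hk
    have hk2 : 2 ≤ k := by omega
    obtain ⟨m, hm⟩ : ∃ m, m = (k + 1) * (k - 1) := ⟨_, rfl⟩
    have hm0 : 0 < m := by rw [hm]; exact Nat.mul_pos (by omega) (by omega)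
    have hdvd : ∀ n ∈ A.filter (fun n => k < n ∧ k + 1 ∣ n + 1 ∧ k - 1 ∣ n - 1), m ∣ 2 * (n - k) := by
      intro n hn
      rw [mem_filter] at hn
      obtain ⟨_, h1, h2, h3⟩ := hn
      have h4 : k + 1 ∣ n - k := by
        have : n - k = (n + 1) - (k + 1) := by omega
        rw [this]; exact Nat.dvd_sub h2 dvd_rfl
      have h5 : k - 1 ∣ n - k := by
        have : n - k = (n - 1) - (k - 1) := by omega
        rw [this]; exact Nat.dvd_sub h3 dvd_rfl
      have h6 : Nat.lcm (k + 1) (k - 1) ∣ n - k := Nat.lcm_dvd h4 h5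
      have h7 : Nat.gcd (k + 1) (k - 1) ∣ 2 := by
        have h8 : Nat.gcd (k + 1) (k - 1) ∣ (k + 1) - (k - 1) :=
          Nat.dvd_sub (Nat.gcd_dvd_left _ _) (Nat.gcd_dvd_right _ _)
        have h9 : (k + 1) - (k - 1) = 2 := by omega
        rwa [h9] at h8
      rw [hm, ← Nat.gcd_mul_lcm]
      exact mul_dvd_mul h7 h6
    have h1 : #(A.filter (fun n => k < n ∧ k + 1 ∣ n + 1 ∧ k - 1 ∣ n - 1)) ≤ #(Icc 1 (2 * X / m)) := by
      apply Finset.card_le_card_of_injOn (fun n => 2 * (n - k) / m)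
      · intro n hn
        have h2 := hdvd n hn
        rw [mem_coe, mem_filter] at hn
        have h3 := (hA n hn.1).1
        rw [coe_Icc, Set.mem_Icc]
        constructor
        · exact Nat.div_pos (Nat.le_of_dvd (by omega) h2) hm0
        · exact Nat.div_le_div_right (by omega)
      · intro n hn n' hn' he
        have h2 := hdvd n hn
        have h2' := hdvd n' hn'
        rw [mem_coe, mem_filter] at hn hn'
        simp only at he
        have h3 := Nat.div_mul_cancel h2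
        have h4 := Nat.div_mul_cancel h2'
        rw [he, h4] at h3
        omega
    rw [Nat.card_Icc, Nat.add_sub_cancel] at h1
    have hkr : (2 : ℝ) ≤ k := by exact_mod_cast hk2
    have hmr : (m : ℝ) = (k : ℝ) ^ 2 - 1 := by
      rw [hm]; push_cast [Nat.cast_sub (by omega : 1 ≤ k)]; ring
    have hm2 : (k : ℝ) ^ 2 / 2 ≤ m := by rw [hmr]; nlinarith
    calc (#(A.filter (fun n => k < n ∧ k + 1 ∣ n + 1 ∧ k - 1 ∣ n - 1)) : ℝ) ≤ ((2 * X / m : ℕ) : ℝ) := by
          exact_mod_cast h1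
      _ ≤ ((2 * X : ℕ) : ℝ) / m := Nat.cast_div_le
      _ ≤ (2 * X : ℝ) / ((k : ℝ) ^ 2 / 2) := by
          push_cast
          gcongr
      _ = _ := by field_simp; ring
  have hz1 : (0 : ℝ) < ((z - 1 : ℕ) : ℝ) := by exact_mod_cast (by omega : 0 < z - 1)
  have hz0 : (0 : ℝ) < z := by exact_mod_cast (by omega : 0 < z)
  calc (#A : ℝ) ≤ ((∑ k ∈ Ioc (z - 1) X, #(A.filter (fun n => k < n ∧ k + 1 ∣ n + 1 ∧ k - 1 ∣ n - 1)) : ℕ) : ℝ) := by
        exact_mod_cast (card_le_card hsub).trans card_biUnion_le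
    _ = ∑ k ∈ Ioc (z - 1) X, (#(A.filter (fun n => k < n ∧ k + 1 ∣ n + 1 ∧ k - 1 ∣ n - 1)) : ℝ) := by
        push_cast; rfl
    _ ≤ ∑ k ∈ Ioc (z - 1) X, 4 * X * (1 / (k : ℝ) ^ 2) := Finset.sum_le_sum hone
    _ = 4 * X * ∑ k ∈ Ioc (z - 1) X, (1 / (k : ℝ) ^ 2) := by rw [Finset.mul_sum]
    _ ≤ 4 * X * (1 / ((z - 1 : ℕ) : ℝ)) := by
        gcongr
        exact sum_inv_sq_tail (z - 1) X (by omega)
    _ ≤ 4 * X * (2 / z) := by
        apply mul_le_mul_of_nonneg_left _ (by positivity)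
        rw [div_le_div_iff₀ hz1 hz0]
        have h1 : ((z - 1 : ℕ) : ℝ) = z - 1 := by rw [Nat.cast_sub (by omega)]; simp
        have h2 : (2 : ℝ) ≤ z := by exact_mod_cast hz
        rw [h1]; linarith
    _ = _ := by ring

/-- A3: large smooth part of `n + 1` -/
theorem smooth_count {X Y z : ℕ} (hY : 1 ≤ Y) (hz : 1 ≤ z) (hYz : Y * z ≤ X) (A : Finset ℕ)
    (hA : ∀ n ∈ A, n ≤ X ∧ ∃ s : ℕ, s ∣ n + 1 ∧ Y < s ∧ ∀ q : ℕ, q.Prime → q ∣ s → q ≤ z) :
    (#A : ℝ) ≤ 2 * X * (Y : ℝ) ^ (-(1 / 64) : ℝ) *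
      Real.exp (3 * (z : ℝ) ^ (1 / 32 : ℝ) * (1 + Real.log z)) := by
  classical
  have hY0 : (0 : ℝ) < Y := by exact_mod_cast hY
  set S : Finset ℕ := (Ioc Y (Y * z)).filter (fun d => ∀ q : ℕ, q.Prime → q ∣ d → q ≤ z) with hS
  have hsub : A ⊆ S.biUnion (fun d => A.filter (fun n => d ∣ n + 1)) := by
    intro n hn
    obtain ⟨_, s, h1, h2, h3⟩ := hA n hn
    obtain ⟨d, h4, h5, h6⟩ := exists_divisor h2 h3 hY
    rw [mem_biUnion]
    refine ⟨d, ?_, mem_filter.2 ⟨hn, h4.trans h1⟩⟩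
    rw [hS, mem_filter, mem_Ioc]
    exact ⟨⟨h5, h6⟩, fun q hq hqd => h3 q hq (hqd.trans h4)⟩
  calc (#A : ℝ) ≤ ((∑ d ∈ S, #(A.filter (fun n => d ∣ n + 1)) : ℕ) : ℝ) := by
        exact_mod_cast (card_le_card hsub).trans card_biUnion_le
    _ = ∑ d ∈ S, (#(A.filter (fun n => d ∣ n + 1)) : ℝ) := by push_cast; rfl
    _ ≤ ∑ d ∈ S, (2 * X * (Y : ℝ) ^ (-(1 / 64) : ℝ)) * (d : ℝ) ^ (-(31 / 32) : ℝ) := by
        apply Finset.sum_le_sum
        intro d hd
        rw [hS, mem_filter, mem_Ioc] at hd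
        have hd0 : 0 < d := by omega
        have hdr : (0 : ℝ) < d := by exact_mod_cast hd0
        have hd1 : (1 : ℝ) ≤ d := by exact_mod_cast hd0
        have h1 := class_count (X := X) (d := d) (A.filter (fun n => d ∣ n + 1))
          (fun x hx => (hA x (mem_filter.1 hx).1).1) (fun x hx y hy =>
            Nat.ModEq.add_right_cancel' 1 ((Nat.modEq_zero_iff_dvd.2 (mem_filter.1 hx).2).trans
              (Nat.modEq_zero_iff_dvd.2 (mem_filter.1 hy).2).symm))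
        have h3 : (1 : ℝ) ≤ X / d := by
          rw [le_div_iff₀ hdr, one_mul]
          exact_mod_cast hd.1.2.trans hYz
        have h4 : (d : ℝ) ^ (-(1 / 64) : ℝ) ≤ (Y : ℝ) ^ (-(1 / 64) : ℝ) := by
          rw [Real.rpow_neg hdr.le, Real.rpow_neg hY0.le]
          apply inv_anti₀ (by positivity)
          apply Real.rpow_le_rpow hY0.le _ (by norm_num)
          exact_mod_cast hd.1.1.le
        calc (#(A.filter (fun n => d ∣ n + 1)) : ℝ) ≤ ((X / d + 1 : ℕ) : ℝ) := by exact_mod_cast h1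
          _ = ((X / d : ℕ) : ℝ) + 1 := by push_cast; ring
          _ ≤ (X : ℝ) / d + X / d := by
              gcongr
              exact Nat.cast_div_le
          _ = 2 * X * (d : ℝ) ^ (-1 : ℝ) := by
              rw [Real.rpow_neg_one]; field_simp; ring
          _ ≤ 2 * X * (d : ℝ) ^ (-(63 / 64) : ℝ) := by
              gcongr 2 * X * ?_
              exact Real.rpow_le_rpow_of_exponent_le hd1 (by norm_num)
          _ = 2 * X * ((d : ℝ) ^ (-(1 / 64) : ℝ) * (d : ℝ) ^ (-(31 / 32) : ℝ)) := by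
              rw [← Real.rpow_add hdr]; norm_num
          _ ≤ 2 * X * ((Y : ℝ) ^ (-(1 / 64) : ℝ) * (d : ℝ) ^ (-(31 / 32) : ℝ)) := by gcongr
          _ = _ := by ring
    _ = (2 * X * (Y : ℝ) ^ (-(1 / 64) : ℝ)) * ∑ d ∈ S, (d : ℝ) ^ (-(31 / 32) : ℝ) := by
        rw [Finset.mul_sum]
    _ ≤ _ := by
        gcongr
        apply smooth_sum z hz
        intro d hd
        rw [hS, mem_filter, mem_Ioc] at hd
        exact ⟨by omega, hd.2⟩

/-- two classes modulo `m r` -/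
lemma count_pm {X m r : ℕ} (hr : r.Prime) (hmr : Nat.Coprime m r) (A : Finset ℕ)
    (hA : ∀ x ∈ A, 1 ≤ x ∧ x ≤ X) (hAm : ∀ x ∈ A, ∀ y ∈ A, x ≡ y [MOD m])
    (hAr : ∀ x ∈ A, r ∣ x ^ 2 - 1) : (#A : ℝ) ≤ 2 * ((X : ℝ) / (m * r) + 1) := by
  classical
  have hsplit : ∀ x ∈ A, r ∣ x + 1 ∨ r ∣ x - 1 := by
    intro x hx
    have h1 := hAr x hx
    rw [IsADS.sq_sub] at h1
    exact hr.dvd_mul.1 h1
  have h1 := class_count (X := X) (d := m * r) (A.filter (fun x => r ∣ x + 1))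
    (fun x hx => (hA x (mem_filter.1 hx).1).2) (fun x hx y hy => by
      rw [mem_filter] at hx hy
      exact (Nat.modEq_and_modEq_iff_modEq_mul hmr).1 ⟨hAm x hx.1 y hy.1,
        Nat.ModEq.add_right_cancel' 1 ((Nat.modEq_zero_iff_dvd.2 hx.2).trans
              (Nat.modEq_zero_iff_dvd.2 hy.2).symm)⟩)
  have h2 := class_count (X := X) (d := m * r) (A.filter (fun x => ¬ r ∣ x + 1))
    (fun x hx => (hA x (mem_filter.1 hx).1).2) (fun x hx y hy => by
      rw [mem_filter] at hx hy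
      refine (Nat.modEq_and_modEq_iff_modEq_mul hmr).1 ⟨hAm x hx.1 y hy.1, ?_⟩
      have h3 := (hsplit x hx.1).resolve_left hx.2
      have h4 := (hsplit y hy.1).resolve_left hy.2
      have h5 : x ≡ 1 [MOD r] := ((Nat.modEq_iff_dvd' (hA x hx.1).1).2 h3).symm
      have h6 : y ≡ 1 [MOD r] := ((Nat.modEq_iff_dvd' (hA y hy.1).1).2 h4).symm
      exact h5.trans h6.symm)
  have h3 := Finset.card_filter_add_card_filter_not (s := A) (fun x => r ∣ x + 1)
  have h4 : #A ≤ 2 * (X / (m * r) + 1) := by omega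
  calc (#A : ℝ) ≤ ((2 * (X / (m * r) + 1) : ℕ) : ℝ) := by exact_mod_cast h4
    _ = 2 * (((X / (m * r) : ℕ) : ℝ) + 1) := by push_cast; ring
    _ ≤ 2 * ((X : ℝ) / ((m * r : ℕ) : ℝ) + 1) := by gcongr; exact Nat.cast_div_le
    _ = _ := by push_cast; ring

/-- the inner sums -/
lemma sum_inner {p L w Y V : ℕ} {H c : ℝ} {X : ℕ} (hw : 0 < w) (hp : 2 ≤ p) (hpL : p < 2 ^ L) (hYV : Y ≤ V)
    (hH : ∑ k ∈ Icc 1 V, (1 : ℝ) / k ≤ H) (hc : 0 ≤ c) :
    ∑ s ∈ Icc 1 Y, ∑ f ∈ Icc 1 Y, ∑ r ∈ (ordSet p f (w ^ 2)).filter (fun r => r ≤ Y),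
      (2 * (X * c * (1 / (s : ℝ) * (1 / (f : ℝ) * (1 / (r : ℝ)))) + 1)) ≤
    2 * X * c * H * ((L + H) / w) + 2 * (Y : ℝ) ^ 3 := by
  classical
  have hw0 : (0 : ℝ) < w := by exact_mod_cast hw
  have hH0 : 0 ≤ H := le_trans (Finset.sum_nonneg fun i _ => by positivity) hH
  have hfr : ∑ f ∈ Icc 1 Y, (1 / (f : ℝ)) * ∑ r ∈ (ordSet p f (w ^ 2)).filter (fun r => r ≤ Y), (1 / (r : ℝ)) ≤
      (L + H) / w := by
    have hTnn : ∀ f, 0 ≤ ∑ r ∈ (ordSet p f (w ^ 2)).filter (fun r => r ≤ Y), (1 : ℝ) / r :=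
      fun f => Finset.sum_nonneg fun i _ => by positivity
    calc ∑ f ∈ Icc 1 Y, (1 / (f : ℝ)) * ∑ r ∈ (ordSet p f (w ^ 2)).filter (fun r => r ≤ Y), (1 / (r : ℝ))
        ≤ ∑ f ∈ Icc 1 w ∪ Ioc w Y, (1 / (f : ℝ)) * ∑ r ∈ (ordSet p f (w ^ 2)).filter (fun r => r ≤ Y), (1 / (r : ℝ)) := by
          apply Finset.sum_le_sum_of_subset_of_nonneg
          · intro f hf
            rw [mem_Icc] at hf
            rw [mem_union, mem_Icc, mem_Ioc]
            omega
          · intro f _ _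
            exact mul_nonneg (by positivity) (hTnn f)
      _ ≤ ∑ f ∈ Icc 1 w, (1 / (f : ℝ)) * ∑ r ∈ (ordSet p f (w ^ 2)).filter (fun r => r ≤ Y), (1 / (r : ℝ)) +
          ∑ f ∈ Ioc w Y, (1 / (f : ℝ)) * ∑ r ∈ (ordSet p f (w ^ 2)).filter (fun r => r ≤ Y), (1 / (r : ℝ)) := by
          rw [← Finset.sum_union_inter]
          have : 0 ≤ ∑ f ∈ Icc 1 w ∩ Ioc w Y, (1 / (f : ℝ)) * ∑ r ∈ (ordSet p f (w ^ 2)).filter (fun r => r ≤ Y), (1 / (r : ℝ)) :=
            Finset.sum_nonneg fun f _ => mul_nonneg (by positivity) (hTnn f)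
          linarith
      _ ≤ ∑ f ∈ Icc 1 w, ((L : ℝ) / w ^ 2) + ∑ f ∈ Ioc w Y, H * (1 / (f : ℝ) ^ 2) := by
          apply add_le_add
          · apply Finset.sum_le_sum
            intro f hf
            rw [mem_Icc] at hf
            have hf0 : (0 : ℝ) < f := by exact_mod_cast (by omega : 0 < f)
            have h2 := sum_inv_ordSet' (z := w ^ 2) (pow_pos hw 2) hp hpL (by omega : 0 < f)
            have h3 : ∑ r ∈ (ordSet p f (w ^ 2)).filter (fun r => r ≤ Y), (1 : ℝ) / r ≤ ∑ r ∈ ordSet p f (w ^ 2), (1 : ℝ) / r :=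
              Finset.sum_le_sum_of_subset_of_nonneg (filter_subset _ _) (fun i _ _ => by positivity)
            calc (1 / (f : ℝ)) * ∑ r ∈ (ordSet p f (w ^ 2)).filter (fun r => r ≤ Y), (1 / (r : ℝ))
                ≤ (1 / (f : ℝ)) * ((L : ℝ) * f / ((w ^ 2 : ℕ) : ℝ)) := by
                  gcongr
                  exact h3.trans h2
              _ = _ := by push_cast; field_simp
          · apply Finset.sum_le_sum
            intro f hf
            rw [mem_Ioc] at hf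
            have hf0 : 0 < f := by omega
            have hf0' : (0 : ℝ) < f := by exact_mod_cast hf0
            have h2 := sum_inv_ordSet (p := p) (z := w ^ 2) hf0 hH
            have h3 : ∑ r ∈ (ordSet p f (w ^ 2)).filter (fun r => r ≤ Y), (1 : ℝ) / r ≤ ∑ r ∈ (ordSet p f (w ^ 2)).filter (fun r => r ≤ V), (1 : ℝ) / r := by
              apply Finset.sum_le_sum_of_subset_of_nonneg
              · intro r hr
                simp only [mem_filter] at hr ⊢
                exact ⟨hr.1, hr.2.trans hYV⟩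
              · intro i _ _; positivity
            calc (1 / (f : ℝ)) * ∑ r ∈ (ordSet p f (w ^ 2)).filter (fun r => r ≤ Y), (1 / (r : ℝ))
                ≤ (1 / (f : ℝ)) * (H / f) := by
                  gcongr
                  exact h3.trans h2
              _ = _ := by field_simp
      _ ≤ (L : ℝ) / w + H / w := by
          apply add_le_add
          · rw [sum_const, nsmul_eq_mul, Nat.card_Icc]
            simp only [add_tsub_cancel_right]
            apply le_of_eq; field_simp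
          · rw [← Finset.mul_sum]
            calc _ ≤ H * (1 / w) := by
                  gcongr
                  exact sum_inv_sq_tail w _ hw
              _ = _ := by ring
      _ = _ := by ring
  have hs1 : ∑ s ∈ Icc 1 Y, (1 : ℝ) / s ≤ H := by
    refine le_trans ?_ hH
    apply Finset.sum_le_sum_of_subset_of_nonneg
    · intro p hp
      rw [mem_Icc] at hp ⊢
      exact ⟨hp.1, hp.2.trans hYV⟩
    · intro i _ _; positivity
  have hcard : ∀ f, (#((ordSet p f (w ^ 2)).filter (fun r => r ≤ Y)) : ℝ) ≤ Y := by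
    intro f
    have h1 : (ordSet p f (w ^ 2)).filter (fun r => r ≤ Y) ⊆ Icc 1 Y := by
      intro r hr
      rw [mem_filter] at hr
      rw [mem_Icc]
      exact ⟨(ordSet_prop hr.1).1.one_lt.le, hr.2⟩
    have h2 := card_le_card h1
    rw [Nat.card_Icc, Nat.add_sub_cancel] at h2
    exact_mod_cast h2
  calc ∑ s ∈ Icc 1 Y, ∑ f ∈ Icc 1 Y, ∑ r ∈ (ordSet p f (w ^ 2)).filter (fun r => r ≤ Y),
      (2 * (X * c * (1 / (s : ℝ) * (1 / (f : ℝ) * (1 / (r : ℝ)))) + 1))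
      = ∑ s ∈ Icc 1 Y, ∑ f ∈ Icc 1 Y, (2 * X * c * (1 / (s : ℝ)) * ((1 / (f : ℝ)) *
          ∑ r ∈ (ordSet p f (w ^ 2)).filter (fun r => r ≤ Y), (1 / (r : ℝ))) +
          2 * (#((ordSet p f (w ^ 2)).filter (fun r => r ≤ Y)) : ℝ)) := by
        apply Finset.sum_congr rfl; intro s _
        apply Finset.sum_congr rfl; intro f _
        rw [← Finset.mul_sum, Finset.sum_add_distrib, sum_const, nsmul_eq_mul, mul_one, ← Finset.mul_sum,
          ← Finset.mul_sum, ← Finset.mul_sum]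
        ring
    _ ≤ ∑ s ∈ Icc 1 Y, ∑ f ∈ Icc 1 Y, (2 * X * c * (1 / (s : ℝ)) * ((1 / (f : ℝ)) *
          ∑ r ∈ (ordSet p f (w ^ 2)).filter (fun r => r ≤ Y), (1 / (r : ℝ))) + 2 * (Y : ℝ)) := by
        apply Finset.sum_le_sum; intro s _
        apply Finset.sum_le_sum; intro f _
        gcongr
        exact_mod_cast hcard f
    _ = ∑ s ∈ Icc 1 Y, (2 * X * c * (1 / (s : ℝ)) * (∑ f ∈ Icc 1 Y, (1 / (f : ℝ)) *
          ∑ r ∈ (ordSet p f (w ^ 2)).filter (fun r => r ≤ Y), (1 / (r : ℝ))) + Y * (2 * (Y : ℝ))) := by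
        apply Finset.sum_congr rfl; intro s _
        rw [Finset.sum_add_distrib, ← Finset.mul_sum, sum_const, nsmul_eq_mul, Nat.card_Icc, Nat.add_sub_cancel]
    _ ≤ ∑ s ∈ Icc 1 Y, (2 * X * c * (1 / (s : ℝ)) * ((L + H) / w) + Y * (2 * (Y : ℝ))) := by
        apply Finset.sum_le_sum; intro s _
        gcongr
    _ = 2 * X * c * ((L + H) / w) * (∑ s ∈ Icc 1 Y, (1 / (s : ℝ))) + 2 * (Y : ℝ) ^ 3 := by
        rw [Finset.sum_add_distrib, sum_const, nsmul_eq_mul, Nat.card_Icc, Nat.add_sub_cancel, Finset.mul_sum]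
        congr 1
        · apply Finset.sum_congr rfl; intro s _; ring
        · ring
    _ ≤ 2 * X * c * ((L + H) / w) * H + 2 * (Y : ℝ) ^ 3 := by gcongr
    _ = _ := by ring

end Pool.Agent.TH506.AFF
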