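import Pool.Agent.TH506.AFF.Cnt
import Pool.Agent.TH506.APD.Rgh

/-!
The exceptional sets `QA`, `QB`, `QC` and the sieve.
-/

set_option autoImplicit false

namespace Pool.Agent.TH506.AFF

open Finset Pool.Agent.TH506.APD

def QA (Y w w0 n : ℕ) : Prop := ∃ p s f r : ℕ, p.Prime ∧ p ≤ w0 ∧ 0 < s ∧ s ≤ Y ∧ 0 < f ∧
  r ∈ ordSet p f (w ^ 2) ∧ r ≤ Y ∧ r ∣ n ^ 2 - 1 ∧ Nat.Coprime s r ∧ n + 1 ≡ s [MOD s * f]
def QB (Y w P n : ℕ) : Prop := ∃ p s f r : ℕ, p.Prime ∧ p ≤ P ∧ p ∣ n ∧ ¬ p ∣ f ∧ ¬ p ∣ s ∧ 0 < s ∧ s ≤ Y ∧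
  0 < f ∧ r ∈ ordSet p f (w ^ 2) ∧ r ≤ Y ∧ r ∣ n ^ 2 - 1 ∧ Nat.Coprime s r ∧ n + 1 ≡ s [MOD s * f]
def QC (Y w0 P n : ℕ) : Prop := ∃ p r : ℕ, p.Prime ∧ w0 < p ∧ p ≤ P ∧ p ∣ n ∧ r.Prime ∧ r ≤ Y ∧
  p ∣ r - 1 ∧ r ∣ n ^ 2 - 1

lemma QA_count {X L w w0 Y V : ℕ} {H : ℝ} (hw : 0 < w) (hL : w0 < 2 ^ L) (hYV : Y ≤ V)
    (hH : ∑ k ∈ Icc 1 V, (1 : ℝ) / k ≤ H) (A : Finset ℕ) (hA : ∀ n ∈ A, 1 ≤ n ∧ n ≤ X ∧ QA Y w w0 n) :
    (#A : ℝ) ≤ w0 * (2 * X * H * ((L + H) / w) + 2 * (Y : ℝ) ^ 3) := by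
  classical
  have hH0 : 0 ≤ H := le_trans (Finset.sum_nonneg fun i _ => by positivity) hH
  have h1 : A ⊆ (Icc 2 w0).biUnion (fun p => (Icc 1 Y).biUnion (fun s => (Icc 1 Y).biUnion (fun f =>
      ((ordSet p f (w ^ 2)).filter (fun r => r ≤ Y)).biUnion (fun r =>
        A.filter (fun n => r ∣ n ^ 2 - 1 ∧ Nat.Coprime s r ∧ n + 1 ≡ s [MOD s * f]))))) := by
    intro n hn
    obtain ⟨_, _, p, s, f, r, h1, h2, h3, h4, h5, h6, h7, h8, h9, h10⟩ := hA n hn
    simp only [mem_biUnion, mem_Icc, mem_filter]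
    have hf : f ≤ Y := by
      have h11 := Nat.le_of_dvd (by have := (ordSet_prop h6).1.two_le; omega) (ordSet_dvd h5 h6)
      omega
    exact ⟨p, ⟨h1.two_le, h2⟩, s, ⟨h3, h4⟩, f, ⟨h5, hf⟩, r, ⟨h6, h7⟩, hn, h8, h9, h10⟩
  calc (#A : ℝ) ≤ ((∑ p ∈ Icc 2 w0, ∑ s ∈ Icc 1 Y, ∑ f ∈ Icc 1 Y, ∑ r ∈ (ordSet p f (w ^ 2)).filter (fun r => r ≤ Y),
        #(A.filter (fun n => r ∣ n ^ 2 - 1 ∧ Nat.Coprime s r ∧ n + 1 ≡ s [MOD s * f])) : ℕ) : ℝ) := by
        norm_cast
        refine (card_le_card h1).trans (card_biUnion_le.trans (sum_le_sum fun p _ => ?_))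
        refine card_biUnion_le.trans (sum_le_sum fun s _ => ?_)
        exact card_biUnion_le.trans (sum_le_sum fun f _ => card_biUnion_le)
    _ = ∑ p ∈ Icc 2 w0, ∑ s ∈ Icc 1 Y, ∑ f ∈ Icc 1 Y, ∑ r ∈ (ordSet p f (w ^ 2)).filter (fun r => r ≤ Y),
        (#(A.filter (fun n => r ∣ n ^ 2 - 1 ∧ Nat.Coprime s r ∧ n + 1 ≡ s [MOD s * f])) : ℝ) := by
        push_cast; rfl
    _ ≤ ∑ p ∈ Icc 2 w0, ∑ s ∈ Icc 1 Y, ∑ f ∈ Icc 1 Y, ∑ r ∈ (ordSet p f (w ^ 2)).filter (fun r => r ≤ Y),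
        (2 * (X * 1 * (1 / (s : ℝ) * (1 / (f : ℝ) * (1 / (r : ℝ)))) + 1)) := by
        apply Finset.sum_le_sum; intro p _
        apply Finset.sum_le_sum; intro s hs
        apply Finset.sum_le_sum; intro f hf
        apply Finset.sum_le_sum; intro r hr
        rw [mem_filter] at hr
        rw [mem_Icc] at hs hf
        by_cases hcop : Nat.Coprime s r
        · have hfr := ordSet_coprime' (by omega : 0 < f) hr.1
          have h2 := count_pm (X := X) (m := s * f) (ordSet_prop hr.1).1 (Nat.Coprime.mul_left hcop hfr)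
            (A.filter (fun n => r ∣ n ^ 2 - 1 ∧ Nat.Coprime s r ∧ n + 1 ≡ s [MOD s * f]))
            (fun x hx => ⟨(hA x (mem_filter.1 hx).1).1, (hA x (mem_filter.1 hx).1).2.1⟩)
            (fun x hx y hy => Nat.ModEq.add_right_cancel' 1
              ((mem_filter.1 hx).2.2.2.trans (mem_filter.1 hy).2.2.2.symm))
            (fun x hx => (mem_filter.1 hx).2.1)
          refine h2.trans (le_of_eq ?_)
          have hs0 : (0 : ℝ) < s := by exact_mod_cast (by omega : 0 < s)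
          have hf0 : (0 : ℝ) < f := by exact_mod_cast (by omega : 0 < f)
          have hr0 : (0 : ℝ) < r := by exact_mod_cast (ordSet_prop hr.1).1.pos
          push_cast
          field_simp
        · have h2 : A.filter (fun n => r ∣ n ^ 2 - 1 ∧ Nat.Coprime s r ∧ n + 1 ≡ s [MOD s * f]) = ∅ := by
            rw [Finset.filter_eq_empty_iff]
            intro n _ h
            exact hcop h.2.1
          rw [h2]
          simp only [card_empty, Nat.cast_zero]
          positivity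
    _ ≤ ∑ p ∈ Icc 2 w0, (2 * X * 1 * H * ((L + H) / w) + 2 * (Y : ℝ) ^ 3) := by
        apply Finset.sum_le_sum; intro p hp
        rw [mem_Icc] at hp
        exact sum_inner hw hp.1 (lt_of_le_of_lt hp.2 hL) hYV hH zero_le_one
    _ ≤ _ := by
        rw [sum_const, nsmul_eq_mul, Nat.card_Icc, mul_one]
        gcongr
        norm_cast
        omega

lemma QB_count {X L w P Y V : ℕ} {H : ℝ} (hw : 0 < w) (hL : P < 2 ^ L) (hYV : Y ≤ V) (hPV : P ≤ V)
    (hH : ∑ k ∈ Icc 1 V, (1 : ℝ) / k ≤ H) (A : Finset ℕ) (hA : ∀ n ∈ A, 1 ≤ n ∧ n ≤ X ∧ QB Y w P n) :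
    (#A : ℝ) ≤ 2 * X * H ^ 2 * ((L + H) / w) + 2 * P * (Y : ℝ) ^ 3 := by
  classical
  have hH0 : 0 ≤ H := le_trans (Finset.sum_nonneg fun i _ => by positivity) hH
  have h1 : A ⊆ (Icc 2 P).biUnion (fun p => (Icc 1 Y).biUnion (fun s => (Icc 1 Y).biUnion (fun f =>
      ((ordSet p f (w ^ 2)).filter (fun r => r ≤ Y)).biUnion (fun r =>
        A.filter (fun n => p.Prime ∧ p ∣ n ∧ ¬ p ∣ f ∧ ¬ p ∣ s ∧ r ∣ n ^ 2 - 1 ∧ Nat.Coprime s r ∧
          n + 1 ≡ s [MOD s * f]))))) := by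
    intro n hn
    obtain ⟨_, _, p, s, f, r, h1, h2, h21, h22, h23, h3, h4, h5, h6, h7, h8, h9, h10⟩ := hA n hn
    simp only [mem_biUnion, mem_Icc, mem_filter]
    have hf : f ≤ Y := by
      have h11 := Nat.le_of_dvd (by have := (ordSet_prop h6).1.two_le; omega) (ordSet_dvd h5 h6)
      omega
    exact ⟨p, ⟨h1.two_le, h2⟩, s, ⟨h3, h4⟩, f, ⟨h5, hf⟩, r, ⟨h6, h7⟩, hn, h1, h21, h22, h23, h8, h9, h10⟩
  have hp1 : ∑ p ∈ Icc 2 P, (1 : ℝ) / p ≤ H := by
    refine le_trans ?_ hH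
    apply Finset.sum_le_sum_of_subset_of_nonneg
    · intro p hp
      rw [mem_Icc] at hp ⊢
      exact ⟨by omega, hp.2.trans hPV⟩
    · intro i _ _; positivity
  calc (#A : ℝ) ≤ ((∑ p ∈ Icc 2 P, ∑ s ∈ Icc 1 Y, ∑ f ∈ Icc 1 Y, ∑ r ∈ (ordSet p f (w ^ 2)).filter (fun r => r ≤ Y),
        #(A.filter (fun n => p.Prime ∧ p ∣ n ∧ ¬ p ∣ f ∧ ¬ p ∣ s ∧ r ∣ n ^ 2 - 1 ∧ Nat.Coprime s r ∧
          n + 1 ≡ s [MOD s * f])) : ℕ) : ℝ) := by
        norm_cast
        refine (card_le_card h1).trans (card_biUnion_le.trans (sum_le_sum fun p _ => ?_))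
        refine card_biUnion_le.trans (sum_le_sum fun s _ => ?_)
        exact card_biUnion_le.trans (sum_le_sum fun f _ => card_biUnion_le)
    _ = ∑ p ∈ Icc 2 P, ∑ s ∈ Icc 1 Y, ∑ f ∈ Icc 1 Y, ∑ r ∈ (ordSet p f (w ^ 2)).filter (fun r => r ≤ Y),
        (#(A.filter (fun n => p.Prime ∧ p ∣ n ∧ ¬ p ∣ f ∧ ¬ p ∣ s ∧ r ∣ n ^ 2 - 1 ∧ Nat.Coprime s r ∧
          n + 1 ≡ s [MOD s * f])) : ℝ) := by
        push_cast; rfl
    _ ≤ ∑ p ∈ Icc 2 P, ∑ s ∈ Icc 1 Y, ∑ f ∈ Icc 1 Y, ∑ r ∈ (ordSet p f (w ^ 2)).filter (fun r => r ≤ Y),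
        (2 * (X * (1 / (p : ℝ)) * (1 / (s : ℝ) * (1 / (f : ℝ) * (1 / (r : ℝ)))) + 1)) := by
        apply Finset.sum_le_sum; intro p hp
        apply Finset.sum_le_sum; intro s hs
        apply Finset.sum_le_sum; intro f hf
        apply Finset.sum_le_sum; intro r hr
        rw [mem_filter] at hr
        rw [mem_Icc] at hp hs hf
        by_cases hcond : p.Prime ∧ Nat.Coprime s r ∧ ¬ p ∣ f ∧ ¬ p ∣ s
        · obtain ⟨hpp, hcop, hpf, hps⟩ := hcond
          have hfr := ordSet_coprime' (by omega : 0 < f) hr.1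
          have hpr := ordSet_coprime hpp (by omega : 0 < f) hr.1
          have hpsf : Nat.Coprime p (s * f) := by
            rw [Nat.Prime.coprime_iff_not_dvd hpp]
            intro h
            rcases hpp.dvd_mul.1 h with h | h
            · exact hps h
            · exact hpf h
          have h2 := count_pm (X := X) (m := p * (s * f)) (ordSet_prop hr.1).1
            (Nat.Coprime.mul_left hpr (Nat.Coprime.mul_left hcop hfr))
            (A.filter (fun n => p.Prime ∧ p ∣ n ∧ ¬ p ∣ f ∧ ¬ p ∣ s ∧ r ∣ n ^ 2 - 1 ∧ Nat.Coprime s r ∧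
              n + 1 ≡ s [MOD s * f]))
            (fun x hx => ⟨(hA x (mem_filter.1 hx).1).1, (hA x (mem_filter.1 hx).1).2.1⟩)
            (fun x hx y hy => by
              rw [mem_filter] at hx hy
              refine (Nat.modEq_and_modEq_iff_modEq_mul hpsf).1 ⟨?_, ?_⟩
              · exact (Nat.modEq_zero_iff_dvd.2 hx.2.2.1).trans (Nat.modEq_zero_iff_dvd.2 hy.2.2.1).symm
              · exact Nat.ModEq.add_right_cancel' 1
                  (hx.2.2.2.2.2.2.2.trans hy.2.2.2.2.2.2.2.symm))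
            (fun x hx => (mem_filter.1 hx).2.2.2.2.2.1)
          refine h2.trans (le_of_eq ?_)
          have hp0 : (0 : ℝ) < p := by exact_mod_cast hpp.pos
          have hs0 : (0 : ℝ) < s := by exact_mod_cast (by omega : 0 < s)
          have hf0 : (0 : ℝ) < f := by exact_mod_cast (by omega : 0 < f)
          have hr0 : (0 : ℝ) < r := by exact_mod_cast (ordSet_prop hr.1).1.pos
          push_cast
          field_simp
        · have h2 : A.filter (fun n => p.Prime ∧ p ∣ n ∧ ¬ p ∣ f ∧ ¬ p ∣ s ∧ r ∣ n ^ 2 - 1 ∧ Nat.Coprime s r ∧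
              n + 1 ≡ s [MOD s * f]) = ∅ := by
            rw [Finset.filter_eq_empty_iff]
            intro n _ h
            exact hcond ⟨h.1, h.2.2.2.2.2.1, h.2.2.1, h.2.2.2.1⟩
          rw [h2]
          simp only [card_empty, Nat.cast_zero]
          positivity
    _ ≤ ∑ p ∈ Icc 2 P, (2 * X * (1 / (p : ℝ)) * H * ((L + H) / w) + 2 * (Y : ℝ) ^ 3) := by
        apply Finset.sum_le_sum; intro p hp
        rw [mem_Icc] at hp
        exact sum_inner hw hp.1 (lt_of_le_of_lt hp.2 hL) hYV hH (by positivity)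
    _ = 2 * X * H * ((L + H) / w) * (∑ p ∈ Icc 2 P, (1 : ℝ) / p) + #(Icc 2 P) * (2 * (Y : ℝ) ^ 3) := by
        rw [Finset.sum_add_distrib, sum_const, nsmul_eq_mul, Finset.mul_sum]
        congr 1
        apply Finset.sum_congr rfl; intro p _; ring
    _ ≤ 2 * X * H * ((L + H) / w) * H + P * (2 * (Y : ℝ) ^ 3) := by
        gcongr
        rw [Nat.card_Icc]; omega
    _ = _ := by ring

lemma QC_count {X w0 P Y V : ℕ} {H : ℝ} (hw0 : 0 < w0) (hYV : Y ≤ V)
    (hH : ∑ k ∈ Icc 1 V, (1 : ℝ) / k ≤ H) (A : Finset ℕ) (hA : ∀ n ∈ A, 1 ≤ n ∧ n ≤ X ∧ QC Y w0 P n) :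
    (#A : ℝ) ≤ 2 * X * H / w0 + 2 * P * Y := by
  classical
  have hH0 : 0 ≤ H := le_trans (Finset.sum_nonneg fun i _ => by positivity) hH
  set R : ℕ → Finset ℕ := fun p => (Icc 1 Y).filter (fun r => r.Prime ∧ p ∣ r - 1) with hR
  have h1 : A ⊆ (Ioc w0 P).biUnion (fun p => (R p).biUnion (fun r =>
        A.filter (fun n => p.Prime ∧ p ∣ n ∧ r ∣ n ^ 2 - 1))) := by
    intro n hn
    obtain ⟨_, _, p, r, h1, h2, h3, h4, h5, h6, h7, h8⟩ := hA n hn
    simp only [mem_biUnion, mem_Ioc, mem_Icc, mem_filter, hR]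
    exact ⟨p, ⟨h2, h3⟩, r, ⟨⟨h5.one_lt.le, h6⟩, h5, h7⟩, hn, h1, h4, h8⟩
  have hsumR : ∀ p : ℕ, 0 < p → ∑ r ∈ R p, (1 : ℝ) / r ≤ H / p := by
    intro p hp
    have hp0 : (0 : ℝ) < p := by exact_mod_cast hp
    calc ∑ r ∈ R p, (1 : ℝ) / r ≤ ∑ r ∈ R p, (1 : ℝ) / (p * (((r - 1) / p : ℕ) : ℝ)) := by
          apply Finset.sum_le_sum
          intro r hr
          simp only [hR, mem_filter] at hr
          have h2 := hr.2.1.two_le
          have h3 : p * ((r - 1) / p) = r - 1 := Nat.mul_div_cancel' hr.2.2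
          have h4 : (p : ℝ) * (((r - 1) / p : ℕ) : ℝ) = r - 1 := by
            rw [← Nat.cast_mul, h3, Nat.cast_sub (by omega)]; simp
          rw [h4]
          have h5 : (2 : ℝ) ≤ r := by exact_mod_cast h2
          apply one_div_le_one_div_of_le <;> linarith
      _ = ∑ k ∈ (R p).image (fun r => (r - 1) / p), (1 : ℝ) / (p * k) := by
          rw [Finset.sum_image]
          intro r hr r' hr' h
          simp only [hR, coe_filter, Set.mem_ofPred_eq] at hr hr'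
          have h1 := Nat.mul_div_cancel' hr.2.2
          have h2 := Nat.mul_div_cancel' hr'.2.2
          have h3 := hr.2.1.two_le
          have h4 := hr'.2.1.two_le
          simp only at h
          rw [h, h2] at h1
          omega
      _ ≤ ∑ k ∈ Icc 1 V, (1 : ℝ) / (p * k) := by
          apply Finset.sum_le_sum_of_subset_of_nonneg
          · intro k hk
            obtain ⟨r, hr, rfl⟩ := mem_image.1 hk
            simp only [hR, mem_filter, mem_Icc] at hr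
            have h2 := hr.2.1.two_le
            rw [mem_Icc]
            constructor
            · exact Nat.div_pos (Nat.le_of_dvd (by omega) hr.2.2) hp
            · exact (Nat.div_le_self _ _).trans (by omega)
          · intro i _ _; positivity
      _ = (∑ k ∈ Icc 1 V, (1 : ℝ) / k) / p := by
          rw [Finset.sum_div]
          apply Finset.sum_congr rfl
          intro k _
          rw [mul_comm, ← div_div]
      _ ≤ H / p := by gcongr
  have hcardR : ∀ p, (#(R p) : ℝ) ≤ Y := by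
    intro p
    have h2 : #(R p) ≤ #(Icc 1 Y) := card_filter_le _ _
    rw [Nat.card_Icc, Nat.add_sub_cancel] at h2
    exact_mod_cast h2
  calc (#A : ℝ) ≤ ((∑ p ∈ Ioc w0 P, ∑ r ∈ R p, #(A.filter (fun n => p.Prime ∧ p ∣ n ∧ r ∣ n ^ 2 - 1)) : ℕ) : ℝ) := by
        norm_cast
        refine (card_le_card h1).trans (card_biUnion_le.trans (sum_le_sum fun p _ => ?_))
        exact card_biUnion_le
    _ = ∑ p ∈ Ioc w0 P, ∑ r ∈ R p, (#(A.filter (fun n => p.Prime ∧ p ∣ n ∧ r ∣ n ^ 2 - 1)) : ℝ) := by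
        push_cast; rfl
    _ ≤ ∑ p ∈ Ioc w0 P, ∑ r ∈ R p, (2 * (X * (1 / (p : ℝ)) * (1 / r) + 1)) := by
        apply Finset.sum_le_sum; intro p hp
        apply Finset.sum_le_sum; intro r hr
        rw [mem_Ioc] at hp
        simp only [hR, mem_filter, mem_Icc] at hr
        by_cases hpp : p.Prime
        · have hpr : Nat.Coprime p r := by
            refine (Nat.coprime_primes hpp hr.2.1).2 ?_
            rintro rfl
            have := Nat.le_of_dvd (by have := hpp.two_le; omega) hr.2.2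
            have := hpp.two_le
            omega
          have h2 := count_pm (X := X) (m := p) hr.2.1 hpr
            (A.filter (fun n => p.Prime ∧ p ∣ n ∧ r ∣ n ^ 2 - 1))
            (fun x hx => ⟨(hA x (mem_filter.1 hx).1).1, (hA x (mem_filter.1 hx).1).2.1⟩)
            (fun x hx y hy => (Nat.modEq_zero_iff_dvd.2 (mem_filter.1 hx).2.2.1).trans
              (Nat.modEq_zero_iff_dvd.2 (mem_filter.1 hy).2.2.1).symm)
            (fun x hx => (mem_filter.1 hx).2.2.2)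
          refine h2.trans (le_of_eq ?_)
          have hp0 : (0 : ℝ) < p := by exact_mod_cast hpp.pos
          have hr0 : (0 : ℝ) < r := by exact_mod_cast hr.2.1.pos
          field_simp
        · have h2 : A.filter (fun n => p.Prime ∧ p ∣ n ∧ r ∣ n ^ 2 - 1) = ∅ := by
            rw [Finset.filter_eq_empty_iff]
            intro n _ h
            exact hpp h.1
          rw [h2]
          simp only [card_empty, Nat.cast_zero]
          positivity
    _ = ∑ p ∈ Ioc w0 P, (2 * X * (1 / (p : ℝ)) * (∑ r ∈ R p, (1 : ℝ) / r) + 2 * (#(R p) : ℝ)) := by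
        apply Finset.sum_congr rfl; intro p _
        rw [← Finset.mul_sum, Finset.sum_add_distrib, sum_const, nsmul_eq_mul, mul_one, ← Finset.mul_sum]
        ring
    _ ≤ ∑ p ∈ Ioc w0 P, (2 * X * H * (1 / (p : ℝ) ^ 2) + 2 * (Y : ℝ)) := by
        apply Finset.sum_le_sum; intro p hp
        rw [mem_Ioc] at hp
        have hp0 : (0 : ℝ) < p := by exact_mod_cast (by omega : 0 < p)
        have h2 := hsumR p (by omega)
        have h3 := hcardR p
        calc 2 * X * (1 / (p : ℝ)) * (∑ r ∈ R p, (1 : ℝ) / r) + 2 * (#(R p) : ℝ)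
            ≤ 2 * X * (1 / (p : ℝ)) * (H / p) + 2 * (Y : ℝ) := by
              apply add_le_add
              · exact mul_le_mul_of_nonneg_left h2 (by positivity)
              · linarith
          _ = _ := by field_simp
    _ = 2 * X * H * (∑ p ∈ Ioc w0 P, (1 : ℝ) / (p : ℝ) ^ 2) + #(Ioc w0 P) * (2 * (Y : ℝ)) := by
        rw [Finset.sum_add_distrib, sum_const, nsmul_eq_mul, Finset.mul_sum]
    _ ≤ 2 * X * H * (1 / w0) + P * (2 * (Y : ℝ)) := by
        gcongr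
        · exact sum_inv_sq_tail w0 P hw0
        · rw [Nat.card_Ioc]; omega
    _ = _ := by ring

end Pool.Agent.TH506.AFF
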