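import Pool.Agent.TH506.AFF.Mul
import Pool.Agent.TH506.APD.Alg

/-!
Affine difference sets: multipliers which are trivial modulo a large prime factor of `n + 1`.
-/

set_option autoImplicit false

namespace Pool.Agent.TH506.AFF

open Finset Pool.Agent.H152R2 Pool.Agent.TH506.APD

variable {G : Type*} [AddCommGroup G] {n : ℕ} {M : AddSubgroup G} {D : Finset G}

/-- the exceptional orders -/
def E2 (z n : ℕ) : Prop := ∃ k : ℕ, z ≤ k ∧ k < n ∧ k + 1 ∣ n + 1 ∧ k - 1 ∣ n - 1

lemma card_map_mul (M H : AddSubgroup G) :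
    Nat.card (H.map (QuotientAddGroup.mk' M)) * Nat.card (H ⊓ M : AddSubgroup G) = Nat.card H := by
  have h1 := AddSubgroup.relIndex_ker H (QuotientAddGroup.mk' M)
  rw [QuotientAddGroup.ker_mk'] at h1
  rw [← h1, ← AddSubgroup.inf_relIndex_left, ← AddSubgroup.relIndex_bot_left,
    ← AddSubgroup.relIndex_bot_left, mul_comm]
  exact AddSubgroup.relIndex_mul_relIndex _ _ _ bot_le inf_le_left

theorem act_trivial (h : IsADS n M D) (hn : 2 ≤ n) {z : ℕ} (hz2 : 2 ≤ z) (hE : ¬ E2 z n) {t : ℕ}
    (ht : ∀ x ∈ D, t • x ∈ D) (htc : Nat.Coprime t (n ^ 2 - 1))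
    {r : ℕ} (hr : r.Prime) (hrv : r ∣ n + 1) (hz : z < r) (htr : (t : ZMod r) = 1) (x : G) :
    t • x = x := by
  classical
  have hfin := h.finite hn
  have := Fintype.ofFinite G
  have hfr : Fact r.Prime := ⟨hr⟩
  set H : AddSubgroup G := fixS G t with hH
  set B : AddSubgroup (G ⧸ M) := fixS (G ⧸ M) t with hB
  set π := QuotientAddGroup.mk' M with hπ
  have hcardQ : Nat.card (G ⧸ M) = n + 1 := h.index hn
  -- `t` permutes `D`
  have hsurj : ∀ y ∈ D, ∃ x ∈ D, t • x = y := by
    intro y hy
    have h1 : Set.SurjOn (fun x => t • x) (D : Set G) D :=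
      Finset.surjOn_of_injOn_of_card_le _ ht (by
        intro a _ b _ hab
        have h3 : t • (a - b) = 0 := by rw [smul_sub]; exact sub_eq_zero.2 hab
        exact sub_eq_zero.1 (h.smul_inj_of_coprime htc h3)) le_rfl
    obtain ⟨x, hx, hxy⟩ := h1 hy
    exact ⟨x, hx, hxy⟩
  obtain ⟨k, hk⟩ : ∃ k, k = #(D.filter (fun x => x ∈ H)) := ⟨_, rfl⟩
  obtain ⟨c, hc⟩ := h.exists_missing hn
  have hinjπ : ∀ a ∈ D, ∀ b ∈ D, π a = π b → a = b := by
    intro a ha b hb hab
    apply h.nodiff a ha b hb
    rw [← QuotientAddGroup.eq_zero_iff]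
    have : π (a - b) = 0 := by rw [map_sub, hab, sub_self]
    exact this
  -- every class but the missing one is hit
  have hall : ∀ y : G ⧸ M, y ≠ π c → ∃ x ∈ D, π x = y := by
    intro y hy
    have hsub : D.image π ⊆ (univ : Finset (G ⧸ M)).erase (π c) := by
      intro y hy
      obtain ⟨x, hx, rfl⟩ := mem_image.1 hy
      rw [mem_erase]
      refine ⟨fun h0 => hc x hx ?_, mem_univ _⟩
      rw [← QuotientAddGroup.eq_zero_iff]
      have : π (x - c) = 0 := by rw [map_sub, h0, sub_self]
      exact this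
    have heq := Finset.eq_of_subset_of_card_le hsub (by
      rw [card_erase_of_mem (mem_univ _), card_univ, ← Nat.card_eq_fintype_card, hcardQ,
        card_image_of_injOn (fun a ha b hb hab => hinjπ a ha b hb hab), h.card]
      rfl)
    have : y ∈ (univ : Finset (G ⧸ M)).erase (π c) := mem_erase.2 ⟨hy, mem_univ _⟩
    rw [← heq] at this
    obtain ⟨x, hx, hxy⟩ := mem_image.1 this
    exact ⟨x, hx, hxy⟩
  have hmiss : ∀ x ∈ D, π x ≠ π c := by
    intro x hx h0
    apply hc x hx
    rw [← QuotientAddGroup.eq_zero_iff]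
    have : π (x - c) = 0 := by rw [map_sub, h0, sub_self]
    exact this
  have hcB : π c ∈ B := by
    rw [hB, mem_fixS]
    by_contra hcon
    obtain ⟨y, hy, hyc⟩ := hall _ hcon
    obtain ⟨x, hx, rfl⟩ := hsurj y hy
    rw [map_nsmul] at hyc
    have h3 : t • (π x - π c) = 0 := by rw [smul_sub, hyc, sub_self]
    have h4 : t • (x - c) ∈ M := by
      rw [← QuotientAddGroup.eq_zero_iff]
      have : π (t • (x - c)) = 0 := by rw [map_nsmul, map_sub]; exact h3
      exact this
    exact hc x hx (h.smul_mem_of_coprime htc h4)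
  -- `k + 1 = |B|`
  have hkB : k + 1 = Nat.card B := by
    have e1 : Nat.card B = #((univ : Finset (G ⧸ M)).filter (fun y => y ∈ B)) := by
      rw [Nat.card_eq_fintype_card, Fintype.card_subtype]
    have e2 : #(D.filter (fun x => x ∈ H)) =
        #(((univ : Finset (G ⧸ M)).filter (fun y => y ∈ B)).erase (π c)) := by
      apply Finset.card_bij (fun x _ => π x)
      · intro x hx
        rw [mem_filter] at hx
        rw [mem_erase, mem_filter]
        refine ⟨hmiss x hx.1, mem_univ _, ?_⟩
        rw [hB, mem_fixS, ← map_nsmul]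
        rw [hH, mem_fixS] at hx
        rw [hx.2]
      · intro a ha b hb hab
        exact hinjπ a (mem_filter.1 ha).1 b (mem_filter.1 hb).1 hab
      · intro y hy
        rw [mem_erase, mem_filter] at hy
        obtain ⟨x, hx, hxy⟩ := hall y hy.1
        refine ⟨x, ?_, hxy⟩
        rw [mem_filter]
        refine ⟨hx, ?_⟩
        rw [hH, mem_fixS]
        apply hinjπ _ (ht x hx) _ hx
        rw [map_nsmul, hxy]
        have := hy.2.2
        rw [hB, mem_fixS] at this
        exact this
    have e3 : #(((univ : Finset (G ⧸ M)).filter (fun y => y ∈ B)).erase (π c)) = Nat.card B - 1 := by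
      rw [card_erase_of_mem (mem_filter.2 ⟨mem_univ _, hcB⟩), e1]
    have e4 : 0 < Nat.card B := Nat.card_pos
    rw [hk, e2, e3]
    omega
  -- `r ∣ |B|`
  have hrB : r ∣ Nat.card B := by
    obtain ⟨g, hg⟩ := exists_prime_addOrderOf_dvd_card' (G := G ⧸ M) r (by rw [hcardQ]; exact hrv)
    have hgf : g ∈ B := by
      rw [hB, mem_fixS]
      have h1 : t ≡ 1 [MOD addOrderOf g] := by
        rw [hg]
        exact (ZMod.natCast_eq_natCast_iff _ _ _).1 (by rw [htr]; simp)
      have h2 : t • g = 1 • g := (nsmul_eq_nsmul_iff_modEq).2 h1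
      rw [h2, one_smul]
    have h4 : addOrderOf (⟨g, hgf⟩ : B) = r := by
      rw [← hg]; exact (AddSubgroup.addOrderOf_mk g hgf)
    rw [← h4]
    exact addOrderOf_dvd_natCard _
  have hzk : z ≤ k := by
    have := Nat.le_of_dvd Nat.card_pos hrB
    omega
  -- the subgroup `H`
  set a := Nat.card (H ⊓ M : AddSubgroup G) with ha
  set b := Nat.card (H.map π) with hb
  have hab : b * a = Nat.card H := card_map_mul M H
  have hHM : Nat.card H = a + k * (k - 1) := by
    have e1 : Nat.card H = #((univ : Finset G).filter (fun x => x ∈ H)) := by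
      rw [Nat.card_eq_fintype_card, Fintype.card_subtype]
    have e2 : a = #((univ : Finset G).filter (fun x => x ∈ H ∧ x ∈ M)) := by
      rw [ha, Nat.card_eq_fintype_card, Fintype.card_subtype]
      congr 1
      ext x
      simp only [mem_filter, mem_univ, true_and, AddSubgroup.mem_inf]
    have e3 : #((D.filter (fun x => x ∈ H)).offDiag) =
        #((univ : Finset G).filter (fun x => x ∈ H ∧ ¬ x ∈ M)) := by
      apply Finset.card_bij (fun q _ => q.1 - q.2)
      · rintro ⟨a, b⟩ hab
        simp only [mem_offDiag, mem_filter] at hab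
        simp only [mem_filter, mem_univ, true_and]
        exact ⟨H.sub_mem hab.1.2 hab.2.1.2, fun hm => hab.2.2 (h.nodiff a hab.1.1 b hab.2.1.1 hm)⟩
      · rintro ⟨a, b⟩ hab ⟨a', b'⟩ hab' he
        simp only [mem_offDiag, mem_filter] at hab hab'
        have := h.uniq hab.1.1 hab.2.1.1 hab'.1.1 hab'.2.1.1 he hab.2.2
        rw [this.1, this.2]
      · intro x hx
        simp only [mem_filter, mem_univ, true_and] at hx
        obtain ⟨q, ⟨h1, h2, hq⟩, _⟩ := h.diff x hx.2
        have hne : q.1 ≠ q.2 := by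
          intro he; apply hx.2; rw [← hq, he, sub_self]; exact M.zero_mem
        have hxH := hx.1
        rw [hH, mem_fixS, ← hq, smul_sub] at hxH
        have h3 := h.uniq h1 h2 (ht _ h1) (ht _ h2) hxH.symm hne
        refine ⟨q, ?_, hq⟩
        simp only [mem_offDiag, mem_filter]
        exact ⟨⟨h1, (mem_fixS).2 h3.1.symm⟩, ⟨h2, (mem_fixS).2 h3.2.symm⟩, hne⟩
    have e4 := Finset.card_filter_add_card_filter_not (s := (univ : Finset G).filter (fun x => x ∈ H))
      (fun x => x ∈ M)
    rw [Finset.filter_filter, Finset.filter_filter, ← e2, ← e3, ← e1, offDiag_card, ← hk] at e4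
    rw [← e4]
    congr 1
    rw [Nat.mul_sub_one]
  have hkb : k ≤ b := by
    have e1 : b = #((univ : Finset (G ⧸ M)).filter (fun y => y ∈ H.map π)) := by
      rw [hb, Nat.card_eq_fintype_card, Fintype.card_subtype]
    rw [e1, hk]
    apply Finset.card_le_card_of_injOn π
    · intro x hx
      simp only [coe_filter, Set.mem_ofPred_eq] at hx
      simp only [coe_filter, mem_univ, true_and, Set.mem_ofPred_eq]
      exact ⟨x, hx.2, rfl⟩
    · intro u hu v hv huv
      simp only [coe_filter, Set.mem_ofPred_eq] at hu hv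
      exact hinjπ u hu.1 v hv.1 huv
  have hbB : b ∣ k + 1 := by
    rw [hkB]
    apply AddSubgroup.card_dvd_of_le
    rintro y ⟨x, hx, rfl⟩
    rw [hB, mem_fixS, ← map_nsmul]
    have : t • x = x := hx
    rw [this]
  have hk2 : 2 ≤ k := hz2.trans hzk
  have hbk : b = k + 1 := by
    obtain ⟨m, hm⟩ := hbB
    have hm0 : m ≠ 0 := by rintro rfl; omega
    have hm1 : m = 1 := by
      by_contra hne
      have h2 : 2 ≤ m := by omega
      have : k * 2 ≤ b * m := Nat.mul_le_mul hkb h2
      omega
    rw [hm1, mul_one] at hm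
    exact hm.symm
  have hak : a = k - 1 := by
    rw [hHM, hbk, Nat.add_mul, one_mul, Nat.add_comm] at hab
    have h1 : k * a = k * (k - 1) := by omega
    exact Nat.eq_of_mul_eq_mul_left (by omega) h1
  have hkn : k ≤ n := by
    rw [hk, ← h.card]; exact card_filter_le _ _
  have h1 : k + 1 ∣ n + 1 := by
    rw [hkB, ← hcardQ]
    exact AddSubgroup.card_addSubgroup_dvd_card _
  have h2 : k - 1 ∣ n - 1 := by
    rw [← hak, ← h.card_sub, ha]
    exact AddSubgroup.card_dvd_of_le inf_le_right
  rcases Nat.lt_or_ge k n with h3 | h3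
  · exact absurd ⟨k, hzk, h3, h1, h2⟩ hE
  · have hkn' : k = n := le_antisymm hkn h3
    have h4 : Nat.card H = Nat.card G := by
      rw [← hab, h.card_group, hbk, hak, hkn', IsADS.sq_sub]
    have h5 : H = ⊤ := AddSubgroup.eq_top_of_card_eq _ h4
    have h6 : x ∈ H := by rw [h5]; trivial
    exact h6

/-- the divisibility relation between the orders of `p` -/
theorem order_dvd (h : IsADS n M D) (hn : 2 ≤ n) {z : ℕ} (hz2 : 2 ≤ z) (hE : ¬ E2 z n)
    {p : ℕ} (hp : p.Prime) (hpn : p ∣ n) {R r : ℕ} (hR : R.Prime) (hRn : R ∣ n + 1) (hzR : z < R)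
    (hr : r.Prime) (hrn : r ∣ n ^ 2 - 1) : orderOf (p : ZMod r) ∣ orderOf (p : ZMod R) := by
  classical
  obtain ⟨D', h', h0⟩ := h.exists_normalised hn
  have hfin := h.finite hn
  have := Fintype.ofFinite G
  have hfr : Fact r.Prime := ⟨hr⟩
  set f := orderOf (p : ZMod R) with hf
  have hcop : Nat.Coprime (p ^ f) (n ^ 2 - 1) :=
    Nat.Coprime.pow_left _ (Nat.Coprime.coprime_dvd_left hpn (IsADS.coprime_n n hn))
  have htriv := act_trivial h' hn hz2 hE (t := p ^ f)
    (fun x hx => h'.pow_smul_mem hn h0 hp hpn f hx) hcop hR hRn hzR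
    (by push_cast; exact pow_orderOf_eq_one _)
  obtain ⟨g, hg⟩ := exists_prime_addOrderOf_dvd_card' (G := G) r (by rw [h.card_group]; exact hrn)
  have h1 : p ^ f • g = 1 • g := by rw [htriv g, one_smul]
  have h2 := (nsmul_eq_nsmul_iff_modEq).1 h1
  rw [hg] at h2
  have h3 := (ZMod.natCast_eq_natCast_iff _ _ _).2 h2
  push_cast at h3
  exact orderOf_dvd_of_pow_eq_one h3

end Pool.Agent.TH506.AFF
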