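import Pool.Agent.H152R2.Planar

/-!
Affine difference sets in finite abelian groups: the multiplier theorem.
-/

set_option autoImplicit false

namespace Pool.Agent.TH506.AFF

open Finset Pool.Agent.H152R2

variable {G : Type*} [AddCommGroup G]

/-- `D` is an affine difference set of order `n` in `G` relative to `M`. -/
structure IsADS (n : ℕ) (M : AddSubgroup G) (D : Finset G) : Prop where
  card_group : Nat.card G = n ^ 2 - 1
  card_sub : Nat.card M = n - 1
  card : #D = n
  diff : ∀ g : G, g ∉ M → ∃! q : G × G, q.1 ∈ D ∧ q.2 ∈ D ∧ q.1 - q.2 = g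
  nodiff : ∀ a ∈ D, ∀ b ∈ D, a - b ∈ M → a = b

namespace IsADS

variable {n : ℕ} {M : AddSubgroup G} {D : Finset G}

lemma uniq (h : IsADS n M D) {x y x' y' : G} (hx : x ∈ D) (hy : y ∈ D) (hx' : x' ∈ D) (hy' : y' ∈ D)
    (he : x - y = x' - y') (hne : x ≠ y) : x = x' ∧ y = y' := by
  have h1 := (h.diff (x - y) (fun hm => hne (h.nodiff x hx y hy hm))).unique (y₁ := (x, y))
    (y₂ := (x', y')) ⟨hx, hy, rfl⟩ ⟨hx', hy', he.symm⟩
  simpa using h1

lemma sq_sub (n : ℕ) : n ^ 2 - 1 = (n + 1) * (n - 1) := by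
  rw [← one_pow 2, Nat.sq_sub_sq]; simp

lemma finite (h : IsADS n M D) (hn : 2 ≤ n) : Finite G := by
  apply Nat.finite_of_card_ne_zero
  rw [h.card_group, sq_sub]
  exact (Nat.mul_pos (by omega) (by omega)).ne'

lemma index (h : IsADS n M D) (hn : 2 ≤ n) : M.index = n + 1 := by
  have h1 := M.index_mul_card
  rw [h.card_sub, h.card_group, sq_sub] at h1
  exact Nat.eq_of_mul_eq_mul_right (by omega) h1

lemma hit [DecidablePred (· ∈ M)] (h : IsADS n M D) (hn : 2 ≤ n) (φ : G → G)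
    (hφ0 : ∀ x ∈ D, φ x ∉ M)
    (hφ1 : ∀ x ∈ D, ∀ y ∈ D, φ x - φ y ∈ M → x = y) (g : G) :
    #(D.filter (fun d => g - φ d ∈ M)) = if g ∈ M then 0 else 1 := by
  classical
  have hfin := h.finite hn
  have := Fintype.ofFinite G
  split_ifs with hg
  · rw [card_eq_zero, Finset.filter_eq_empty_iff]
    intro d hd hgd
    apply hφ0 d hd
    have := M.sub_mem hg hgd
    simpa using this
  · have hinj : Set.InjOn (fun x => (QuotientAddGroup.mk (φ x) : G ⧸ M)) (D : Set G) := by
      intro a ha b hb hab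
      have h4 : -φ a + φ b ∈ M := QuotientAddGroup.eq.1 hab
      have h5 : φ b - φ a ∈ M := by rw [sub_eq_add_neg, add_comm]; exact h4
      exact (hφ1 b hb a ha h5).symm
    have hsub : D.image (fun x => (QuotientAddGroup.mk (φ x) : G ⧸ M)) ⊆ (univ : Finset (G ⧸ M)).erase 0 := by
      intro y hy
      obtain ⟨x, hx, rfl⟩ := mem_image.1 hy
      rw [mem_erase]
      refine ⟨fun h0 => hφ0 x hx ((QuotientAddGroup.eq_zero_iff _).1 h0), mem_univ _⟩
    have hcard : #((univ : Finset (G ⧸ M)).erase 0) = n := by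
      rw [card_erase_of_mem (mem_univ _), card_univ, ← Nat.card_eq_fintype_card]
      have := h.index hn
      have h2 : Nat.card (G ⧸ M) = M.index := rfl
      rw [h2, this]; rfl
    have heq := Finset.eq_of_subset_of_card_le hsub (by
      rw [hcard, card_image_of_injOn hinj, h.card])
    have hgm : (QuotientAddGroup.mk g : G ⧸ M) ∈ (univ : Finset (G ⧸ M)).erase 0 := by
      rw [mem_erase]
      exact ⟨fun h0 => hg ((QuotientAddGroup.eq_zero_iff _).1 h0), mem_univ _⟩
    rw [← heq] at hgm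
    obtain ⟨d, hd, hdg⟩ := mem_image.1 hgm
    have hdg' : g - φ d ∈ M := by
      have h4 : -φ d + g ∈ M := QuotientAddGroup.eq.1 hdg
      rw [sub_eq_add_neg, add_comm]; exact h4
    rw [card_eq_one]
    refine ⟨d, ?_⟩
    ext e
    rw [mem_filter, mem_singleton]
    constructor
    · rintro ⟨he, hge⟩
      apply hφ1 e he d hd
      have := M.sub_mem hdg' hge
      simpa using this
    · rintro rfl
      exact ⟨hd, hdg'⟩

/-- the sum over the subgroup -/
noncomputable def S [Fintype G] (M : AddSubgroup G) : AddMonoidAlgebra ℤ G := by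
  classical
  exact F ((univ : Finset G).filter (· ∈ M)) 1

lemma cf_S [Fintype G] [DecidablePred (· ∈ M)] (g : G) :
    cf g (S M) = if g ∈ M then 1 else 0 := by
  classical
  have key : ∀ A : Finset G, (∀ x, x ∈ A ↔ x ∈ M) →
      (#(A.filter (fun d => (1 : ℤ) • d = g)) : ℤ) = if g ∈ M then 1 else 0 := by
    intro A hA
    split_ifs with hg
    · have : A.filter (fun d => (1 : ℤ) • d = g) = {g} := by
        ext x
        rw [mem_filter, mem_singleton, one_smul, hA]
        constructor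
        · rintro ⟨_, h⟩; exact h
        · rintro rfl; exact ⟨hg, rfl⟩
      rw [this]; simp
    · have : A.filter (fun d => (1 : ℤ) • d = g) = ∅ := by
        rw [Finset.filter_eq_empty_iff]
        intro x hx hxg
        rw [one_smul] at hxg
        exact hg (hxg ▸ (hA x).1 hx)
      rw [this]; simp
  unfold S
  rw [cf_F]
  exact key _ (fun x => by simp)

lemma S_mul_F [Fintype G] [DecidablePred (· ∈ M)] (h : IsADS n M D) (hn : 2 ≤ n) (a : ℤ)
    (hφ0 : ∀ x ∈ D, a • x ∉ M) (hφ1 : ∀ x ∈ D, ∀ y ∈ D, a • x - a • y ∈ M → x = y) :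
    S M * F D a = J - S M := by
  classical
  apply ext_cf
  intro g
  rw [cf_mul_F, map_sub, cf_J, cf_S]
  have h1 := h.hit hn (fun x => a • x) hφ0 hφ1 g
  have h2 : ∑ d ∈ D, cf (g - a • d) (S M) = (#(D.filter (fun d => g - a • d ∈ M)) : ℤ) := by
    rw [Finset.card_filter]
    push_cast
    exact Finset.sum_congr rfl fun d _ => cf_S _
  rw [h2, h1]
  split_ifs <;> simp

lemma mul_neg_self [Fintype G] (h : IsADS n M D) :
    F D 1 * F D (-1) = ((n : ℤ) : AddMonoidAlgebra ℤ G) + J - S M := by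
  classical
  apply ext_cf
  intro g
  rw [cf_mul, map_sub, map_add, cf_J, cf_S]
  have h1 : cf g (((n : ℤ) : AddMonoidAlgebra ℤ G)) = if g = 0 then (n : ℤ) else 0 := by
    have h1 := cf_zsmul g n (e (0 : G))
    rw [e_zero, mul_one] at h1
    rw [h1, ← e_zero, cf_e]
    by_cases hg : g = 0
    · simp [hg]
    · simp [hg, Ne.symm hg]
  rw [h1]
  by_cases hg : g = 0
  · subst hg
    have h2 : N D 1 (-1) (0 : G) = n := by
      rw [N]
      conv_rhs => rw [← h.card]
      symm
      apply Finset.card_bij (fun d _ => (d, d))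
      · intro d hd; simp [hd]
      · intro a _ b _ hab; simpa using hab
      · rintro ⟨a, b⟩ hab
        simp only [mem_filter, mem_product, one_smul, neg_smul, add_neg_eq_zero] at hab
        obtain ⟨⟨ha, _⟩, hb⟩ := hab
        exact ⟨a, ha, by simp [hb]⟩
    rw [h2]
    simp [M.zero_mem]
  · by_cases hgM : g ∈ M
    · have h2 : N D 1 (-1) g = 0 := by
        rw [N, card_eq_zero, Finset.filter_eq_empty_iff]
        rintro ⟨a, b⟩ hab he
        rw [mem_product] at hab
        simp only [one_smul, neg_smul, ← sub_eq_add_neg] at he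
        have := h.nodiff a hab.1 b hab.2 (he ▸ hgM)
        apply hg
        rw [← he, this, sub_self]
      rw [h2]
      simp [hg, hgM]
    · obtain ⟨q, ⟨h1, h2, h3⟩, hq⟩ := h.diff g hgM
      have h2 : N D 1 (-1) g = 1 := by
        rw [N, Finset.card_eq_one]
        refine ⟨q, ?_⟩
        ext q'
        simp only [mem_filter, mem_product, one_smul, neg_smul, mem_singleton]
        constructor
        · rintro ⟨⟨h4, h5⟩, h6⟩
          exact hq q' ⟨h4, h5, by rw [← h6]; abel⟩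
        · rintro rfl
          exact ⟨⟨h1, h2⟩, by rw [← h3]; abel⟩
      rw [h2]
      simp [hg, hgM]

lemma coprime_n (n : ℕ) (hn : 2 ≤ n) : Nat.Coprime n (n ^ 2 - 1) := by
  have h1 : n ^ 2 = (n ^ 2 - 1) + 1 := by
    have : 1 ≤ n ^ 2 := Nat.one_le_pow _ _ (by omega)
    omega
  have h2 : Nat.gcd n (n ^ 2 - 1) ∣ 1 := by
    have h3 : Nat.gcd n (n ^ 2 - 1) ∣ n ^ 2 := (Nat.gcd_dvd_left _ _).trans (dvd_pow_self n (by norm_num))
    rw [h1] at h3
    exact (Nat.dvd_add_right (Nat.gcd_dvd_right _ _)).1 h3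
  exact Nat.dvd_one.1 h2

lemma smul_inj_of_coprime (h : IsADS n M D) {k : ℕ} (hk : Nat.Coprime k (n ^ 2 - 1)) {x : G}
    (hx : k • x = 0) : x = 0 := by
  have h1 : addOrderOf x ∣ k := addOrderOf_dvd_of_nsmul_eq_zero hx
  have h2 : addOrderOf x ∣ n ^ 2 - 1 := by
    rw [← h.card_group]; exact addOrderOf_dvd_natCard x
  have h3 : addOrderOf x = 1 := Nat.eq_one_of_dvd_coprimes hk h1 h2
  exact AddMonoid.addOrderOf_eq_one_iff.1 h3

lemma smul_mem_of_coprime (h : IsADS n M D) {k : ℕ} (hk : Nat.Coprime k (n ^ 2 - 1)) {x : G}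
    (hx : k • x ∈ M) : x ∈ M := by
  have h0 : k • (QuotientAddGroup.mk x : G ⧸ M) = 0 := by
    have : (QuotientAddGroup.mk (k • x) : G ⧸ M) = 0 := (QuotientAddGroup.eq_zero_iff _).2 hx
    exact this
  have h1 : addOrderOf (QuotientAddGroup.mk x : G ⧸ M) ∣ k := addOrderOf_dvd_of_nsmul_eq_zero h0
  have h2 : addOrderOf (QuotientAddGroup.mk x : G ⧸ M) ∣ n ^ 2 - 1 := by
    refine (addOrderOf_map_dvd (QuotientAddGroup.mk' M) x).trans ?_
    rw [← h.card_group]; exact addOrderOf_dvd_natCard x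
  have h3 : addOrderOf (QuotientAddGroup.mk x : G ⧸ M) = 1 := Nat.eq_one_of_dvd_coprimes hk h1 h2
  exact (QuotientAddGroup.eq_zero_iff _).1 (AddMonoid.addOrderOf_eq_one_iff.1 h3)

/-- the multiplier theorem for centred affine difference sets -/
lemma multiplier0 (h : IsADS n M D) (hn : 2 ≤ n) (hc : ∀ x ∈ D, x ∉ M) {r : ℕ} (hr : r.Prime)
    (hrn : r ∣ n) : ∃ s : G, ∀ x ∈ D, ∃ d ∈ D, r • x = s + d := by
  classical
  have := h.finite hn
  have := Fintype.ofFinite G
  have hcop : Nat.Coprime r (n ^ 2 - 1) := Nat.Coprime.coprime_dvd_left hrn (coprime_n n hn)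
  obtain ⟨k, hk⟩ := hrn
  have hS1 : S M * F D 1 = J - S M := h.S_mul_F hn 1 (fun x hx => by simpa using hc x hx)
    (fun x hx y hy hxy => h.nodiff x hx y hy (by simpa using hxy))
  have hSr : S M * F D r = J - S M := h.S_mul_F hn r (fun x hx hm => by
      rw [natCast_zsmul] at hm
      exact hc x hx (h.smul_mem_of_coprime hcop hm))
    (fun x hx y hy hxy => by
      rw [natCast_zsmul, natCast_zsmul, ← smul_sub] at hxy
      exact h.nodiff x hx y hy (h.smul_mem_of_coprime hcop hxy))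
  -- powers
  have hJ : ∀ j : ℕ, F D 1 ^ j * J = ((n : ℤ) : AddMonoidAlgebra ℤ G) ^ j * J := by
    intro j
    induction j with
    | zero => simp
    | succ j ih =>
      have : F D 1 ^ (j + 1) * J = F D 1 ^ j * J * F D 1 := by ring
      rw [this, ih, mul_assoc, mul_comm J, F_mul_J, h.card]
      ring
  have hnr : ((n : ℤ) : AddMonoidAlgebra ℤ G) = ((r : ℤ) : AddMonoidAlgebra ℤ G) * ((k : ℤ) : AddMonoidAlgebra ℤ G) := by
    rw [hk]; push_cast; ring
  have hSj : ∀ j : ℕ, ∃ z, F D 1 ^ (j + 1) * S M = (-1) ^ j * (J - S M) + ((r : ℤ) : AddMonoidAlgebra ℤ G) * z := by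
    intro j
    induction j with
    | zero => exact ⟨0, by rw [zero_add, pow_one, mul_comm, hS1]; ring⟩
    | succ j ih =>
      obtain ⟨z, hz⟩ := ih
      refine ⟨(-1) ^ j * ((k : ℤ) : AddMonoidAlgebra ℤ G) * J + F D 1 * z, ?_⟩
      have e1 : F D 1 ^ (j + 1 + 1) * S M = F D 1 * (F D 1 ^ (j + 1) * S M) := by ring
      have e2 : F D 1 * J = ((n : ℤ) : AddMonoidAlgebra ℤ G) * J := by
        have := hJ 1
        simpa using this
      have e3 : F D 1 * S M = J - S M := by rw [mul_comm]; exact hS1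
      rw [e1, hz, mul_add]
      have e4 : F D 1 * ((-1) ^ j * (J - S M)) = (-1) ^ j * (F D 1 * J - F D 1 * S M) := by ring
      rw [e4, e2, e3, hnr]
      ring
  -- congruence modulo r
  have hcong : ∃ z, F D r * F D (-1) = (J - S M) + ((r : ℤ) : AddMonoidAlgebra ℤ G) * z := by
    obtain ⟨z, hz⟩ := F_pow_prime hr D 1
    rw [one_mul] at hz
    obtain ⟨m, hm⟩ : ∃ m, r = m + 2 := ⟨r - 2, by have := hr.two_le; omega⟩
    obtain ⟨z2, hz2⟩ := hSj m
    obtain ⟨w, hw⟩ : ∃ w : ℤ, (-1 : ℤ) ^ m = -1 + r * w := by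
      rcases hr.eq_two_or_odd' with h2 | hodd
      · refine ⟨1, ?_⟩
        have : m = 0 := by omega
        rw [this, h2]; norm_num
      · refine ⟨0, ?_⟩
        have : Odd m := by
          rw [hm] at hodd
          have := hodd
          rw [Nat.odd_add] at this
          exact this.2 (by norm_num)
        rw [this.neg_one_pow]; ring
    have hw' : (-1 : AddMonoidAlgebra ℤ G) ^ m = -1 + ((r : ℤ) : AddMonoidAlgebra ℤ G) * ((w : ℤ) : AddMonoidAlgebra ℤ G) := by
      have := congrArg (fun t : ℤ => (t : AddMonoidAlgebra ℤ G)) hw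
      push_cast at this
      push_cast
      exact this
    have h1 : F D 1 ^ r * F D (-1) = F D 1 ^ (m + 1) * (((n : ℤ) : AddMonoidAlgebra ℤ G) + J - S M) := by
      rw [← h.mul_neg_self, ← mul_assoc, ← pow_succ, hm]
    have h6 : F D (r : ℤ) = F D 1 ^ r - ((r : ℤ) : AddMonoidAlgebra ℤ G) * z := by rw [hz]; ring
    refine ⟨F D 1 ^ (m + 1) * ((k : ℤ) : AddMonoidAlgebra ℤ G) +
      ((k : ℤ) : AddMonoidAlgebra ℤ G) * ((n : ℤ) : AddMonoidAlgebra ℤ G) ^ m * J - z2 -
      ((w : ℤ) : AddMonoidAlgebra ℤ G) * (J - S M) - z * F D (-1), ?_⟩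
    have h7 : F D 1 ^ (m + 1) * (((n : ℤ) : AddMonoidAlgebra ℤ G) + J - S M) =
        F D 1 ^ (m + 1) * ((n : ℤ) : AddMonoidAlgebra ℤ G) + F D 1 ^ (m + 1) * J - F D 1 ^ (m + 1) * S M := by ring
    have h8 : ((n : ℤ) : AddMonoidAlgebra ℤ G) ^ (m + 1) = ((r : ℤ) : AddMonoidAlgebra ℤ G) *
        ((k : ℤ) : AddMonoidAlgebra ℤ G) * ((n : ℤ) : AddMonoidAlgebra ℤ G) ^ m := by
      rw [pow_succ']
      rw [← hnr]
    have h9 : F D 1 ^ (m + 1) * ((n : ℤ) : AddMonoidAlgebra ℤ G) = ((r : ℤ) : AddMonoidAlgebra ℤ G) *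
        (F D 1 ^ (m + 1) * ((k : ℤ) : AddMonoidAlgebra ℤ G)) := by
      conv_lhs => rw [hnr]
      ring
    rw [h6, sub_mul, h1, h7, hJ, hz2, h8, h9, hw']
    ring
  obtain ⟨z, hz⟩ := hcong
  set T := F D r * F D (-1) - (J - S M) with hT
  have hge : ∀ g, (0 : ℤ) ≤ cf g T := by
    intro g
    have h1 := congrArg (cf g) hz
    rw [cf_mul, map_add, map_sub, cf_J, cf_S, cf_zsmul] at h1
    rw [hT, map_sub, map_sub, cf_J, cf_S, cf_mul]
    have h2 : (0 : ℤ) ≤ N D r (-1) g := by positivity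
    have hr2 : (2 : ℤ) ≤ r := by exact_mod_cast hr.two_le
    split_ifs at h1 ⊢ with hg
    · linarith
    · by_contra hcon
      push Not at hcon
      have h3 : (N D r (-1) g : ℤ) = 0 := by omega
      rw [h3] at h1
      have h4 : (r : ℤ) * cf g z = -1 := by linarith
      have h5 : (r : ℤ) ∣ 1 := ⟨- cf g z, by linarith⟩
      have := Int.le_of_dvd one_pos h5
      omega
  have hmain : T * F D 1 = ((n : ℤ) : AddMonoidAlgebra ℤ G) * F D r := by
    have e2 : F D 1 * J = ((n : ℤ) : AddMonoidAlgebra ℤ G) * J := by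
      have := hJ 1
      simpa using this
    have e3 : F D r * J = ((n : ℤ) : AddMonoidAlgebra ℤ G) * J := by rw [F_mul_J, h.card]
    have e4 : T * F D 1 = F D r * (F D 1 * F D (-1)) - (F D 1 * J - S M * F D 1) := by rw [hT]; ring
    have e5 : F D r * (((n : ℤ) : AddMonoidAlgebra ℤ G) + J - S M) =
      ((n : ℤ) : AddMonoidAlgebra ℤ G) * F D r + F D r * J - S M * F D r := by ring
    rw [e4, h.mul_neg_self, hS1, e2, e5, e3, hSr]
    ring
  have hex : ∃ s, (0 : ℤ) < cf s T := by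
    by_contra hcon
    push Not at hcon
    have hT0 : T = 0 := by
      apply ext_cf
      intro g
      rw [map_zero]
      exact le_antisymm (hcon g) (hge g)
    rw [hT0, zero_mul] at hmain
    obtain ⟨x, hx⟩ : D.Nonempty := by rw [← card_pos, h.card]; omega
    have h1 := congrArg (cf ((r : ℤ) • x)) hmain
    rw [map_zero, cf_zsmul, cf_F] at h1
    have h2 : 0 < #{d ∈ D | (r : ℤ) • d = (r : ℤ) • x} := card_pos.2 ⟨x, mem_filter.2 ⟨hx, rfl⟩⟩
    have h3 : (0 : ℤ) < (n : ℤ) * #{d ∈ D | (r : ℤ) • d = (r : ℤ) • x} := by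
      apply mul_pos
      · exact_mod_cast (by omega : 0 < n)
      · exact_mod_cast h2
    omega
  obtain ⟨s, hs⟩ := hex
  have hstep : ∀ d ∈ D, ∃ x ∈ D, r • x = s + d := by
    intro d hd
    have h1 := congrArg (cf (s + d)) hmain
    rw [cf_mul_F, cf_zsmul, cf_F] at h1
    have h2 : (0 : ℤ) < ∑ x ∈ D, cf (s + d - (1 : ℤ) • x) T := by
      apply Finset.sum_pos'
      · intro x _
        exact hge _
      · refine ⟨d, hd, ?_⟩
        have : s + d - (1 : ℤ) • d = s := by simp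
        rw [this]
        exact hs
    rw [h1] at h2
    have h3 : (0 : ℤ) < #{x ∈ D | (r : ℤ) • x = s + d} := by
      by_contra hcon
      have : (#{x ∈ D | (r : ℤ) • x = s + d} : ℤ) = 0 := by
        have : (0 : ℤ) ≤ #{x ∈ D | (r : ℤ) • x = s + d} := by positivity
        omega
      rw [this] at h2
      simp at h2
    have h4 : 0 < #{x ∈ D | (r : ℤ) • x = s + d} := by exact_mod_cast h3
    obtain ⟨x, hx⟩ := Finset.card_pos.1 h4
    rw [mem_filter, natCast_zsmul] at hx
    exact ⟨x, hx.1, hx.2⟩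
  choose! φ hφ1 hφ2 using hstep
  refine ⟨s, ?_⟩
  have hinj : Set.InjOn φ D := by
    intro a ha b hb hab
    have h1 := hφ2 a ha
    have h2 := hφ2 b hb
    rw [hab, h2] at h1
    exact (add_left_cancel h1).symm
  have hsurj : Set.SurjOn φ D D := Finset.surjOn_of_injOn_of_card_le φ hφ1 hinj le_rfl
  intro x hx
  obtain ⟨d, hd, hdx⟩ := hsurj hx
  exact ⟨d, hd, by rw [← hdx]; exact hφ2 d hd⟩

lemma translate (h : IsADS n M D) (s : G) : IsADS n M (D.map (Equiv.addRight s).toEmbedding) := by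
  refine ⟨h.card_group, h.card_sub, by rw [card_map, h.card], ?_, ?_⟩
  · intro g hg
    obtain ⟨q, ⟨h1, h2, h3⟩, hq⟩ := h.diff g hg
    refine ⟨(q.1 + s, q.2 + s), ⟨?_, ?_, ?_⟩, ?_⟩
    · simpa using h1
    · simpa using h2
    · simpa using h3
    · rintro ⟨a, b⟩ ⟨ha, hb, hab⟩
      simp only [mem_map, Equiv.coe_toEmbedding, Equiv.coe_addRight] at ha hb
      obtain ⟨a', ha', rfl⟩ := ha
      obtain ⟨b', hb', rfl⟩ := hb
      have := hq (a', b') ⟨ha', hb', by rw [← hab]; simp⟩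
      rw [← this]
  · intro a ha b hb hab
    simp only [mem_map, Equiv.coe_toEmbedding, Equiv.coe_addRight] at ha hb
    obtain ⟨a', ha', rfl⟩ := ha
    obtain ⟨b', hb', rfl⟩ := hb
    have := h.nodiff a' ha' b' hb' (by simpa using hab)
    rw [this]

/-- the missing coset -/
lemma exists_missing (h : IsADS n M D) (hn : 2 ≤ n) : ∃ c : G, ∀ x ∈ D, x - c ∉ M := by
  classical
  have hfin := h.finite hn
  have := Fintype.ofFinite G
  by_contra hcon
  push Not at hcon
  have h1 : (univ : Finset (G ⧸ M)) ⊆ D.image (fun x => (QuotientAddGroup.mk x : G ⧸ M)) := by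
    intro y _
    obtain ⟨c, rfl⟩ := QuotientAddGroup.mk_surjective y
    obtain ⟨x, hx, hxc⟩ := hcon c
    rw [mem_image]
    refine ⟨x, hx, ?_⟩
    rw [QuotientAddGroup.eq]
    have := M.neg_mem hxc
    rw [neg_sub, sub_eq_add_neg, add_comm] at this
    exact this
  have h2 := (card_le_card h1).trans card_image_le
  rw [card_univ, ← Nat.card_eq_fintype_card, h.card] at h2
  have h3 : Nat.card (G ⧸ M) = M.index := rfl
  rw [h3, h.index hn] at h2
  omega

lemma multiplier (h : IsADS n M D) (hn : 2 ≤ n) {r : ℕ} (hr : r.Prime)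
    (hrn : r ∣ n) : ∃ s : G, ∀ x ∈ D, ∃ d ∈ D, r • x = s + d := by
  obtain ⟨c, hc⟩ := h.exists_missing hn
  have h1 := h.translate (-c)
  obtain ⟨s, hs⟩ := h1.multiplier0 hn (by
    intro x hx
    simp only [mem_map, Equiv.coe_toEmbedding, Equiv.coe_addRight] at hx
    obtain ⟨y, hy, rfl⟩ := hx
    rw [← sub_eq_add_neg]
    exact hc y hy) hr hrn
  refine ⟨s + r • c - c, fun x hx => ?_⟩
  obtain ⟨d, hd, hxd⟩ := hs (x + -c) (by simpa using hx)
  simp only [mem_map, Equiv.coe_toEmbedding, Equiv.coe_addRight] at hd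
  obtain ⟨y, hy, rfl⟩ := hd
  refine ⟨y, hy, ?_⟩
  rw [smul_add, smul_neg] at hxd
  have : r • x = s + (y + -c) + r • c := by rw [← hxd]; abel
  rw [this]; abel

lemma prime_smul_mem (h : IsADS n M D) (hn : 2 ≤ n) (h0 : ∑ d ∈ D, d = 0) {r : ℕ} (hr : r.Prime)
    (hrn : r ∣ n) {x : G} (hx : x ∈ D) : r • x ∈ D := by
  classical
  obtain ⟨s, hs⟩ := h.multiplier hn hr hrn
  choose! φ hφ1 hφ2 using hs
  have hcop : Nat.Coprime r (n ^ 2 - 1) := Nat.Coprime.coprime_dvd_left hrn (coprime_n n hn)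
  have hinj : Set.InjOn φ D := by
    intro a ha b hb hab
    have h1 := hφ2 a ha
    have h2 := hφ2 b hb
    rw [hab, ← h2] at h1
    have h3 : r • (a - b) = 0 := by rw [smul_sub, h1, sub_self]
    exact sub_eq_zero.1 (h.smul_inj_of_coprime hcop h3)
  have hsurj : Set.SurjOn φ D D := Finset.surjOn_of_injOn_of_card_le φ hφ1 hinj le_rfl
  have h1 : ∑ x ∈ D, r • x = ∑ x ∈ D, (s + φ x) := Finset.sum_congr rfl hφ2
  have h2 : ∑ x ∈ D, φ x = ∑ x ∈ D, x := by
    apply Finset.sum_bij (fun x _ => φ x) hφ1 (fun a ha b hb hab => hinj ha hb hab)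
    · intro b hb
      obtain ⟨a, ha, hab⟩ := hsurj hb
      exact ⟨a, ha, hab⟩
    · intro a _; rfl
  rw [Finset.sum_add_distrib, h2, ← Finset.smul_sum, h0, smul_zero, add_zero, Finset.sum_const,
    h.card] at h1
  have h3 : s = 0 := h.smul_inj_of_coprime (coprime_n n hn) h1.symm
  rw [hφ2 x hx, h3, zero_add]
  exact hφ1 x hx

lemma pow_smul_mem (h : IsADS n M D) (hn : 2 ≤ n) (h0 : ∑ d ∈ D, d = 0) {r : ℕ} (hr : r.Prime)
    (hrn : r ∣ n) (i : ℕ) {x : G} (hx : x ∈ D) : r ^ i • x ∈ D := by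
  induction i with
  | zero => simpa using hx
  | succ i ih => rw [pow_succ', mul_smul]; exact h.prime_smul_mem hn h0 hr hrn ih

/-- Every affine difference set has a normalised translate. -/
lemma exists_normalised (h : IsADS n M D) (hn : 2 ≤ n) :
    ∃ D' : Finset G, IsADS n M D' ∧ ∑ d ∈ D', d = 0 := by
  classical
  have := h.finite hn
  have hinj : Function.Injective (fun s : G => n • s) := by
    intro a b hab
    have h3 : n • (a - b) = 0 := by rw [smul_sub]; exact sub_eq_zero.2 hab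
    exact sub_eq_zero.1 (h.smul_inj_of_coprime (coprime_n n hn) h3)
  obtain ⟨s, hs⟩ := (Finite.injective_iff_surjective.1 hinj) (- ∑ d ∈ D, d)
  refine ⟨D.map (Equiv.addRight s).toEmbedding, h.translate s, ?_⟩
  rw [Finset.sum_map]
  simp only [Equiv.coe_toEmbedding, Equiv.coe_addRight]
  rw [Finset.sum_add_distrib, Finset.sum_const, h.card]
  simp only at hs
  rw [hs, add_neg_cancel]

end IsADS

end Pool.Agent.TH506.AFF
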