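import Pool.Agent.TH506.AFF.Cnt2

/-!
The two-dimensional sieve and the cover.
-/

set_option autoImplicit false

namespace Pool.Agent.TH506.AFF

open Finset Polynomial Pool.Agent.TH506.APD
open Pool.Agent.H410R2.ED Pool.Agent.H474R2.PG

open Classical in
theorem rough_pm : ∃ (C : ℝ) (Y0 : ℕ), 0 < C ∧ ∀ X Y z J1 : ℕ, Y0 ≤ Y → 1 ≤ X → 1 ≤ J1 →
    z < 2 ^ 2 ^ J1 → ∀ A : Finset ℕ, (∀ n ∈ A, 1 ≤ n ∧ n ≤ X ∧
      (∀ l : ℕ, l.Prime → l ∣ n ^ 2 - 1 → l ≤ z ∨ Y < l)) →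
    (#A : ℝ) ≤ C * X * (2 ^ J1) ^ 2 / Real.log Y ^ 2 + Y := by
  obtain ⟨c, hc, hsv⟩ := sieve_exp
  obtain ⟨C1, hC1, h1⟩ := mert (Polynomial.X : ℤ[X]) Polynomial.irreducible_X (by rw [natDegree_X]; norm_num)
  have hlog2 : 0 < Real.log 2 := Real.log_pos (by norm_num)
  have hc0 : (0 : ℝ) < c := by exact_mod_cast hc
  refine ⟨4 * Real.exp (4 * C1) * (8 * c * Real.log 2) ^ 2, 2 ^ (16 * c), by positivity,
    fun X Y z J1 hY0 hX hJ1 hw A hA => ?_⟩
  obtain ⟨J, hJ, hJ2, hJ3, hJ4⟩ := exists_level3 hc hY0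
  have hY2 : 2 ^ 1 ≤ Y := le_trans (Nat.pow_le_pow_right (by norm_num) (by omega)) hY0
  have hlogY : 0 < Real.log Y := Real.log_pos (by exact_mod_cast (by omega : 1 < Y))
  obtain ⟨P, hP⟩ : ∃ P : ℕ → ℕ → Prop, ∀ l n, P l n ↔ (2 ^ 2 ^ J1 ≤ l ∧ (l ∣ n + 1 ∨ l ∣ n + (l - 1))) :=
    ⟨_, fun _ _ => Iff.rfl⟩
  have hper : ∀ l n, P l (n + l) ↔ P l n := by
    intro l n
    rw [hP, hP]
    have h3 : n + l + 1 = (n + 1) + l := by ring
    have h4 : n + l + (l - 1) = (n + (l - 1)) + l := by omega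
    rw [h3, h4, Nat.dvd_add_self_right, Nat.dvd_add_self_right]
  have hsubl : ∀ l : ℕ, l.Prime → (range l).filter (P l) ⊆ {1, l - 1} := by
    intro l hl n hn
    rw [mem_filter, mem_range, hP] at hn
    obtain ⟨hnl, _, h⟩ := hn
    rw [mem_insert, mem_singleton]
    rcases h with h | h
    · right
      have := Nat.le_of_dvd (by omega) h
      omega
    · left
      rcases Nat.eq_zero_or_pos n with h0 | h0
      · exfalso
        rw [h0, zero_add] at h
        have := Nat.le_of_dvd (by have := hl.two_le; omega) h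
        have := hl.two_le
        omega
      · have h5 : n + (l - 1) = (n - 1) + l := by have := hl.two_le; omega
        rw [h5, Nat.dvd_add_self_right] at h
        rcases Nat.eq_zero_or_pos (n - 1) with h6 | h6
        · omega
        · have := Nat.le_of_dvd h6 h
          omega
  have hcard3 : ∀ l : ℕ, l.Prime → #((range l).filter (P l)) ≤ 3 := by
    intro l hl
    have h3 := card_le_card (hsubl l hl)
    have h4 := card_le_two (a := 1) (b := l - 1)
    omega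
  have hcard2 : ∀ l ∈ Pr 3 J, (#((range l).filter (P l)) : ℝ) =
      if 2 ^ 2 ^ J1 ≤ l then 2 * (rho (Polynomial.X : ℤ[X]) l : ℝ) else 0 := by
    intro l hl
    unfold Pr at hl
    rw [mem_filter] at hl
    have hlp := hl.2.1
    have hl6 : 6 < l := by have := hl.2.2; omega
    split_ifs with h4
    · rw [rho_X hlp.pos]
      have h5 : (range l).filter (P l) = {1, l - 1} := by
        apply Finset.Subset.antisymm (hsubl l hlp)
        intro n hn
        rw [mem_insert, mem_singleton] at hn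
        rw [mem_filter, mem_range, hP]
        rcases hn with rfl | rfl
        · refine ⟨by omega, h4, Or.inr ?_⟩
          have : 1 + (l - 1) = l := by omega
          rw [this]
        · refine ⟨by omega, h4, Or.inl ?_⟩
          have : l - 1 + 1 = l := by omega
          rw [this]
      rw [h5, card_pair (by omega)]
      norm_num
    · rw [Nat.cast_eq_zero, card_eq_zero, Finset.filter_eq_empty_iff]
      intro n _ h
      exact h4 ((hP l n).1 h).1
  have hS : 2 * (J * Real.log 2) - 2 * (J1 * Real.log 2) - 4 * C1 ≤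
      ∑ l ∈ Pr 3 J, (#((range l).filter (P l)) : ℝ) / l := by
    have e1 := (abs_le.1 (h1 J hJ)).1
    have e3 := (abs_le.1 (h1 J1 hJ1)).2
    have e4 : ∑ l ∈ Pr 3 J, (#((range l).filter (P l)) : ℝ) / l =
        2 * ∑ l ∈ (Pr 3 J).filter (fun l => 2 ^ 2 ^ J1 ≤ l), (rho (Polynomial.X : ℤ[X]) l : ℝ) / l := by
      rw [Finset.sum_filter, Finset.mul_sum]
      apply Finset.sum_congr rfl
      intro l hl
      rw [hcard2 l hl]
      split_ifs <;> ring
    have e5 := Finset.sum_filter_add_sum_filter_not (Pr 3 J) (fun l => 2 ^ 2 ^ J1 ≤ l)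
      (fun l => (rho (Polynomial.X : ℤ[X]) l : ℝ) / l)
    have e6 : ∑ l ∈ (Pr 3 J).filter (fun l => ¬ 2 ^ 2 ^ J1 ≤ l), (rho (Polynomial.X : ℤ[X]) l : ℝ) / l ≤
        ∑ l ∈ Pr 3 J1, (rho (Polynomial.X : ℤ[X]) l : ℝ) / l := by
      apply Finset.sum_le_sum_of_subset_of_nonneg
      · intro l hl
        rw [mem_filter] at hl
        have h3 := (mem_filter.1 hl.1).2
        unfold Pr
        rw [mem_filter, mem_range]
        exact ⟨not_le.1 hl.2, h3⟩
      · intro i _ _; positivity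
    rw [e4]
    linarith
  have hmain := hsv P (X + 1) J _ hper hcard3 hS
  have hsub : A ⊆ (range (X + 1)).filter (fun t => ∀ l ∈ Pr 3 J, ¬ P l t) := by
    intro n hn
    obtain ⟨h2, h3, h5⟩ := hA n hn
    rw [mem_filter, mem_range]
    refine ⟨by omega, ?_⟩
    intro l hl hPl
    have hlp : l.Prime := (mem_filter.1 hl).2.1
    have hlt : l < 2 ^ 2 ^ J := mem_range.1 (mem_filter.1 hl).1
    obtain ⟨h6, h7⟩ := (hP l n).1 hPl
    have h8 : l ∣ n ^ 2 - 1 := by
      rw [IsADS.sq_sub]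
      rcases h7 with h7 | h7
      · exact h7.mul_right _
      · have h9 : n + (l - 1) = (n - 1) + l := by have := hlp.two_le; omega
        rw [h9, Nat.dvd_add_self_right] at h7
        exact h7.mul_left _
    rcases h5 l hlp h8 with h9 | h9 <;> omega
  have hexp : Real.exp (-(2 * (J * Real.log 2) - 2 * (J1 * Real.log 2) - 4 * C1)) =
      Real.exp (4 * C1) * (2 ^ J1) ^ 2 * (1 / 2 ^ J) ^ 2 := by
    have e1 : -(2 * (J * Real.log 2) - 2 * (J1 * Real.log 2) - 4 * C1) =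
        4 * C1 + Real.log (2 ^ J1) + Real.log (2 ^ J1) - Real.log (2 ^ J) - Real.log (2 ^ J) := by
      rw [Real.log_pow, Real.log_pow]; ring
    rw [e1, Real.exp_sub, Real.exp_sub, Real.exp_add, Real.exp_add, Real.exp_log (by positivity),
      Real.exp_log (by positivity)]
    field_simp
  calc (#A : ℝ) ≤ _ := by exact_mod_cast card_le_card hsub
    _ ≤ _ := hmain
    _ ≤ 2 * ((X + 1 : ℕ) : ℝ) * (Real.exp (4 * C1) * (2 ^ J1) ^ 2 * (8 * c * Real.log 2 / Real.log Y) ^ 2) + Y := by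
        rw [hexp]
        gcongr
    _ ≤ 2 * (2 * (X : ℝ)) * (Real.exp (4 * C1) * (2 ^ J1) ^ 2 * (8 * c * Real.log 2 / Real.log Y) ^ 2) + Y := by
        have : ((X + 1 : ℕ) : ℝ) ≤ 2 * X := by
          have : (1 : ℝ) ≤ X := by exact_mod_cast hX
          push_cast; linarith
        gcongr
    _ = _ := by field_simp; ring

/-- the decomposition into a smooth and a rough part -/
lemma exists_smooth_part (z : ℕ) : ∀ m : ℕ, m ≠ 0 → ∃ s T : ℕ, m = s * T ∧
    (∀ q : ℕ, q.Prime → q ∣ s → q ≤ z) ∧ (∀ q : ℕ, q.Prime → q ∣ T → z < q) := by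
  intro m
  induction m using Nat.recOnMul with
  | zero => intro h; exact absurd rfl h
  | one =>
    intro _
    refine ⟨1, 1, rfl, ?_, ?_⟩ <;> intro q hq h1 <;> exact absurd (Nat.dvd_one.1 h1) hq.one_lt.ne'
  | prime p hp =>
    intro _
    rcases le_or_gt p z with h | h
    · refine ⟨p, 1, by ring, fun q hq h1 => ?_, fun q hq h1 => absurd (Nat.dvd_one.1 h1) hq.one_lt.ne'⟩
      rw [(Nat.prime_dvd_prime_iff_eq hq hp).1 h1]; exact h
    · refine ⟨1, p, by ring, fun q hq h1 => absurd (Nat.dvd_one.1 h1) hq.one_lt.ne', fun q hq h1 => ?_⟩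
      rw [(Nat.prime_dvd_prime_iff_eq hq hp).1 h1]; exact h
  | mul a b iha ihb =>
    intro h0
    have ha : a ≠ 0 := by rintro rfl; simp at h0
    have hb : b ≠ 0 := by rintro rfl; simp at h0
    obtain ⟨s, T, h1, h2, h3⟩ := iha ha
    obtain ⟨s', T', h1', h2', h3'⟩ := ihb hb
    refine ⟨s * s', T * T', by rw [h1, h1']; ring, fun q hq h => ?_, fun q hq h => ?_⟩
    · rcases hq.dvd_mul.1 h with h | h
      · exact h2 q hq h
      · exact h2' q hq h
    · rcases hq.dvd_mul.1 h with h | h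
      · exact h3 q hq h
      · exact h3' q hq h

/-- orders of affine difference sets in abelian groups -/
def IsAO (n : ℕ) : Prop := ∃ (G : Type) (_ : AddCommGroup G) (M : AddSubgroup G) (D : Finset G), IsADS n M D

def QS (Y z n : ℕ) : Prop := ∀ l : ℕ, l.Prime → l ∣ n ^ 2 - 1 → l ≤ z ∨ Y < l

theorem cover {Y w w0 n : ℕ} (hw : 2 ≤ w ^ 2) (hn : 2 ≤ n) (hO : IsAO n)
    (hnX : n ≤ 2 * Y ^ 20) (hnp : ¬ n.Prime) :
    E2 (w ^ 2) n ∨ (∃ s : ℕ, s ∣ n + 1 ∧ Y < s ∧ ∀ q : ℕ, q.Prime → q ∣ s → q ≤ w ^ 2) ∨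
    QA Y w w0 n ∨ QB Y w (2 * Y ^ 10) n ∨ QC Y w0 (2 * Y ^ 10) n ∨ QS Y (w ^ 2) n := by
  by_cases hE : E2 (w ^ 2) n
  · exact Or.inl hE
  by_cases hA3 : ∃ s : ℕ, s ∣ n + 1 ∧ Y < s ∧ ∀ q : ℕ, q.Prime → q ∣ s → q ≤ w ^ 2
  · exact Or.inr (Or.inl hA3)
  by_cases hS : QS Y (w ^ 2) n
  · exact Or.inr (Or.inr (Or.inr (Or.inr (Or.inr hS))))
  have hn1 : n ≠ 1 := by omega
  obtain ⟨p, hpdef⟩ : ∃ p : ℕ, p = n.minFac := ⟨_, rfl⟩
  have hp : p.Prime := by rw [hpdef]; exact Nat.minFac_prime hn1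
  have hpn : p ∣ n := by rw [hpdef]; exact Nat.minFac_dvd n
  have hp2 : p ^ 2 ≤ n := by rw [hpdef]; exact Nat.minFac_sq_le_self (by omega) hnp
  have hpY : p ≤ 2 * Y ^ 10 := by
    by_contra hcon
    push Not at hcon
    have h1 : (2 * Y ^ 10) ^ 2 < p ^ 2 := Nat.pow_lt_pow_left hcon (by norm_num)
    have h2 : (2 * Y ^ 10) ^ 2 = 4 * Y ^ 20 := by ring
    omega
  unfold QS at hS
  push Not at hS
  obtain ⟨r, hr, hrn, hzr, hrY⟩ := hS
  obtain ⟨G, _, M, D, hD⟩ := hO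
  obtain ⟨s, T, hsT, hs, hT⟩ := exists_smooth_part (w ^ 2) (n + 1) (by omega)
  have hs0 : 0 < s := by
    rcases Nat.eq_zero_or_pos s with h | h
    · rw [h, zero_mul] at hsT; omega
    · exact h
  have hT0 : T ≠ 0 := by rintro rfl; simp at hsT
  have hsn : s ∣ n + 1 := by rw [hsT]; exact dvd_mul_right _ _
  have hsY : s ≤ Y := by
    by_contra hcon
    exact hA3 ⟨s, hsn, not_le.1 hcon, hs⟩
  have hcopn := IsADS.coprime_n n hn
  have hpr0 : (p : ZMod r) ≠ 0 := by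
    intro h
    have h1 := (ZMod.natCast_eq_zero_iff _ _).1 h
    have h2 := Nat.dvd_gcd (h1.trans hpn) hrn
    rw [hcopn] at h2
    exact hr.one_lt.ne' (Nat.dvd_one.1 h2)
  have hfr : Fact r.Prime := ⟨hr⟩
  obtain ⟨f, hf⟩ : ∃ f, f = orderOf (p : ZMod r) := ⟨_, rfl⟩
  have hf0 : 0 < f := by
    rw [hf, orderOf_pos_iff]
    exact isOfFinOrder_iff_pow_eq_one.2 ⟨r - 1, by have := hr.two_le; omega,
      ZMod.pow_card_sub_one_eq_one hpr0⟩
  have hrf : r ∈ ordSet p f (w ^ 2) := mem_ordSet_of hp.two_le hf0 hr hzr hf.symm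
  have hTf : T ≡ 1 [MOD f] := by
    apply modEq_one_of_primes T hT0
    intro R hR hRT
    have hRn : R ∣ n + 1 := by rw [hsT]; exact hRT.mul_left _
    have h1 := order_dvd hD hn hw hE hp hpn hR hRn (hT R hR hRT) hr hrn
    have hfR : Fact R.Prime := ⟨hR⟩
    have hpR0 : (p : ZMod R) ≠ 0 := by
      intro h
      have h1 := (ZMod.natCast_eq_zero_iff _ _).1 h
      have h2 : R ∣ n ^ 2 - 1 := by rw [IsADS.sq_sub]; exact hRn.mul_right _
      have h3 := Nat.dvd_gcd (h1.trans hpn) h2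
      rw [hcopn] at h3
      exact hR.one_lt.ne' (Nat.dvd_one.1 h3)
    have h2 : orderOf (p : ZMod R) ∣ R - 1 := orderOf_dvd_of_pow_eq_one (ZMod.pow_card_sub_one_eq_one hpR0)
    rw [← hf] at h1
    exact ((Nat.modEq_iff_dvd' hR.one_lt.le).2 (h1.trans h2)).symm
  have hmod : n + 1 ≡ s [MOD s * f] := by
    rw [hsT]
    have := Nat.ModEq.mul_left' s hTf
    rwa [mul_one] at this
  have hsr : Nat.Coprime s r := by
    rw [Nat.coprime_comm, Nat.Prime.coprime_iff_not_dvd hr]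
    intro h
    have := hs r hr h
    omega
  have hps : ¬ p ∣ s := by
    intro h
    have h1 := (Nat.dvd_add_right hpn).1 (h.trans hsn)
    exact hp.one_lt.ne' (Nat.dvd_one.1 h1)
  rcases le_or_gt p w0 with hpw | hpw
  · exact Or.inr (Or.inr (Or.inl ⟨p, s, f, r, hp, hpw, hs0, hsY, hf0, hrf, hrY, hrn, hsr, hmod⟩))
  · by_cases hpf : p ∣ f
    · exact Or.inr (Or.inr (Or.inr (Or.inr (Or.inl ⟨p, r, hp, hpw, hpY, hpn, hr, hrY,
        hpf.trans (ordSet_dvd hf0 hrf), hrn⟩))))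
    · exact Or.inr (Or.inr (Or.inr (Or.inl ⟨p, s, f, r, hp, hpY, hpn, hpf, hps, hs0, hsY, hf0, hrf,
        hrY, hrn, hsr, hmod⟩)))

end Pool.Agent.TH506.AFF
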